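import Pool.Graph.R_seed8.Y335.FL.Stm2

/-!
# Small edge cuts in graphs of girth twelve
-/

set_option autoImplicit false
set_option linter.unusedSectionVars false

namespace Pool.Agent.H14.F5

open Finset Pool.Agent.Y335.FL

/-- the arithmetic -/
theorem numeric (s m : ℕ) (h0 : 0 < s) (h2 : 2 * s ≤ 2 * m) (h3 : 3 * s ≤ 2 * m + 8)
    (h : 2 * ∑ i ∈ range 6, (2 * (m : ℝ) / s - 1) ^ i ≤ s) : 69 ≤ s := by
  have hs0 : (0 : ℝ) < s := by exact_mod_cast h0
  have h2' : (2 : ℝ) * s ≤ 2 * m := by exact_mod_cast h2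
  have h3' : (3 : ℝ) * s ≤ 2 * m + 8 := by exact_mod_cast h3
  set x : ℝ := 2 * (m : ℝ) / s - 1 with hx
  have hmono : ∀ c : ℝ, 0 ≤ c → c ≤ x → 2 * ∑ i ∈ range 6, c ^ i ≤ s := by
    intro c hc hcx
    refine le_trans ?_ h
    refine mul_le_mul_of_nonneg_left (sum_le_sum fun i _ => ?_) (by norm_num)
    exact pow_le_pow_left₀ hc hcx i
  have e : ∀ c : ℝ, (c + 1) * s ≤ 2 * m → c ≤ x := by
    intro c hc
    rw [hx]
    have : c + 1 ≤ 2 * (m : ℝ) / s := by rwa [le_div_iff₀ hs0]
    linarith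
  have s1 : (12 : ℝ) ≤ s := by
    have := hmono 1 (by norm_num) (e 1 (by linarith))
    simp only [one_pow, sum_const, card_range, nsmul_eq_mul] at this
    norm_num at this
    exact_mod_cast this
  have s2 : (28 : ℕ) ≤ s := by
    have h5 := hmono (4 / 3) (by norm_num) (e (4 / 3) (by linarith))
    simp only [sum_range_succ, sum_range_zero] at h5
    norm_num at h5
    have h6 : (27 : ℝ) < s := by linarith
    have h7 : 27 < s := by exact_mod_cast h6
    omega
  have s2' : (28 : ℝ) ≤ s := by exact_mod_cast s2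
  have h5 := hmono (12 / 7) (by norm_num) (e (12 / 7) (by linarith))
  simp only [sum_range_succ, sum_range_zero] at h5
  norm_num at h5
  have h6 : (68 : ℝ) < s := by linarith
  have h7 : 68 < s := by exact_mod_cast h6
  omega

variable {V : Type} [Fintype V] [DecidableEq V]

/-- the number of the edges which leave `Y` -/
def outN (G : SimpleGraph V) [DecidableRel G.Adj] (Y : Finset V) : ℕ :=
  ∑ v ∈ Y, (univ.filter (fun w => w ∉ Y ∧ G.Adj v w)).card

theorem deg_split (G : SimpleGraph V) [DecidableRel G.Adj] (Y : Finset V) (v : V) :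
    G.degree v = (univ.filter (fun w => w ∈ Y ∧ G.Adj v w)).card +
      (univ.filter (fun w => w ∉ Y ∧ G.Adj v w)).card := by
  rw [← G.card_neighborFinset_eq_degree,
    ← card_filter_add_card_filter_not (s := G.neighborFinset v) (fun w => w ∈ Y)]
  congr 2
  · ext w
    simp [and_comm]
  · ext w
    simp [and_comm]

theorem outN_erase (G : SimpleGraph V) [DecidableRel G.Adj] (Y : Finset V) (v : V) (hv : v ∈ Y) :
    outN G (Y.erase v) + (univ.filter (fun w => w ∉ Y ∧ G.Adj v w)).card ≤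
      outN G Y + (univ.filter (fun w => w ∈ Y ∧ G.Adj v w)).card := by
  unfold outN
  rw [← add_sum_erase Y _ hv]
  have h1 : ∑ u ∈ Y.erase v, (univ.filter (fun w => w ∉ Y.erase v ∧ G.Adj u w)).card ≤
      ∑ u ∈ Y.erase v, ((univ.filter (fun w => w ∉ Y ∧ G.Adj u w)).card +
        if G.Adj u v then 1 else 0) := by
    refine sum_le_sum fun u _ => ?_
    by_cases huv : G.Adj u v
    · rw [if_pos huv]
      refine (card_le_card (t := insert v (univ.filter (fun w => w ∉ Y ∧ G.Adj u w))) ?_).trans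
        (card_insert_le _ _)
      intro w hw
      rw [mem_filter] at hw
      rw [mem_insert, mem_filter]
      by_cases hwv : w = v
      · exact Or.inl hwv
      · refine Or.inr ⟨mem_univ _, fun h => hw.2.1 (mem_erase.2 ⟨hwv, h⟩), hw.2.2⟩
    · rw [if_neg huv, add_zero]
      refine card_le_card ?_
      intro w hw
      rw [mem_filter] at hw ⊢
      refine ⟨mem_univ _, fun h => hw.2.1 (mem_erase.2 ⟨?_, h⟩), hw.2.2⟩
      rintro rfl
      exact huv hw.2.2
  rw [sum_add_distrib, ← card_filter] at h1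
  have h2 : ((Y.erase v).filter (fun u => G.Adj u v)).card ≤
      (univ.filter (fun w => w ∈ Y ∧ G.Adj v w)).card := by
    refine card_le_card ?_
    intro w hw
    rw [mem_filter, mem_erase] at hw
    rw [mem_filter]
    exact ⟨mem_univ _, hw.1.2, hw.2.symm⟩
  omega

/-- **Small cuts.**  A vertex set which contains a subgraph without vertices of degree less than
two, and which is left by at most eight edges, has at least 69 vertices. -/
theorem side_large (ha : St_ahl) (G : SimpleGraph V) [DecidableRel G.Adj]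
    (hg : Girth G.Adj 12) (h3 : ∀ v, 3 ≤ G.degree v) (X Z : Finset V) (hZX : Z ⊆ X)
    (hZ : Z.Nonempty) (hZ2 : ∀ v ∈ Z, 2 ≤ (univ.filter (fun w => w ∈ Z ∧ G.Adj v w)).card)
    (hk : outN G X ≤ 8) : 69 ≤ X.card := by
  classical
  obtain ⟨Y, hY, hmin⟩ := exists_min_image
    (univ.filter (fun Y : Finset V => Z ⊆ Y ∧ Y ⊆ X ∧ outN G Y ≤ 8)) (fun Y => Y.card)
    ⟨X, mem_filter.2 ⟨mem_univ _, hZX, subset_rfl, hk⟩⟩
  obtain ⟨-, hZY, hYX, hkY⟩ := mem_filter.1 hY
  have hin : ∀ v ∈ Y, 2 ≤ (univ.filter (fun w => w ∈ Y ∧ G.Adj v w)).card := by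
    intro v hv
    by_contra hlt
    have hvZ : v ∉ Z := by
      intro hvZ
      have h1 := hZ2 v hvZ
      have h2 : (univ.filter (fun w => w ∈ Z ∧ G.Adj v w)).card ≤
          (univ.filter (fun w => w ∈ Y ∧ G.Adj v w)).card := by
        refine card_le_card ?_
        intro w hw
        rw [mem_filter] at hw ⊢
        exact ⟨hw.1, hZY hw.2.1, hw.2.2⟩
      omega
    have h1 := outN_erase G Y v hv
    have h2 := deg_split G Y v
    have h4 := h3 v
    have h5 := hmin (Y.erase v) (mem_filter.2 ⟨mem_univ _, fun z hz => mem_erase.2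
      ⟨fun h => hvZ (h ▸ hz), hZY hz⟩, (erase_subset _ _).trans hYX, by omega⟩)
    have h6 := card_erase_lt_of_mem hv
    omega
  refine le_trans ?_ (card_le_card hYX)
  obtain ⟨z, hz⟩ := hZ
  have hzY := hZY hz
  have : Nonempty Y := ⟨⟨z, hzY⟩⟩
  let H : SimpleGraph Y :=
    { Adj := fun a b => G.Adj a b
      symm := ⟨fun a b h => SimpleGraph.Adj.symm h⟩
      loopless := ⟨fun a h => SimpleGraph.Adj.ne h rfl⟩ }
  have hHA : ∀ a b : Y, H.Adj a b ↔ G.Adj a b := fun a b => Iff.rfl
  have hdeg : ∀ a : Y, H.degree a = (univ.filter (fun w => w ∈ Y ∧ G.Adj a w)).card := by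
    intro a
    rw [← H.card_neighborFinset_eq_degree, ← card_map (Function.Embedding.subtype _)]
    congr 1
    ext w
    rw [mem_map, mem_filter]
    constructor
    · rintro ⟨b, hb, rfl⟩
      rw [SimpleGraph.mem_neighborFinset, hHA] at hb
      exact ⟨mem_univ _, b.2, hb⟩
    · rintro ⟨-, h1, h2⟩
      exact ⟨⟨w, h1⟩, by rw [SimpleGraph.mem_neighborFinset, hHA]; exact h2, rfl⟩
  have hahl := ha Y H (fun a => by rw [hdeg]; exact hin a a.2) (by
    intro k hk v hv h
    exact hg k hk (fun i => (v i : V)) (fun i j hij => hv (Subtype.ext hij)) h)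
  have hsum := H.sum_degrees_eq_twice_card_edges
  have hc : Fintype.card Y = Y.card := Fintype.card_coe Y
  rw [hc] at hahl
  have hs2 : 2 * Y.card ≤ 2 * H.edgeFinset.card := by
    rw [← hsum, mul_comm 2 Y.card, ← hc, ← smul_eq_mul, ← Finset.card_univ, ← sum_const]
    exact sum_le_sum fun a _ => by rw [hdeg]; exact hin a a.2
  have hs3 : 3 * Y.card ≤ 2 * H.edgeFinset.card + 8 := by
    have h5 : ∑ v ∈ Y, (3 : ℕ) ≤ ∑ v ∈ Y, ((univ.filter (fun w => w ∈ Y ∧ G.Adj v w)).card +
        (univ.filter (fun w => w ∉ Y ∧ G.Adj v w)).card) :=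
      sum_le_sum fun v _ => by rw [← deg_split]; exact h3 v
    rw [sum_const, smul_eq_mul, sum_add_distrib] at h5
    have h6 : ∑ v ∈ Y, (univ.filter (fun w => w ∈ Y ∧ G.Adj v w)).card =
        ∑ a : Y, H.degree a := by
      rw [← sum_coe_sort Y (fun v => (univ.filter (fun w => w ∈ Y ∧ G.Adj v w)).card)]
      exact sum_congr rfl fun a _ => (hdeg a).symm
    rw [h6, hsum] at h5
    have h7 : ∑ v ∈ Y, (univ.filter (fun w => w ∉ Y ∧ G.Adj v w)).card ≤ 8 := hkY
    omega
  exact numeric Y.card H.edgeFinset.card (card_pos.2 ⟨z, hzY⟩) hs2 hs3 hahl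

end Pool.Agent.H14.F5
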