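import Pool.Agent.H14.F5.Tree
import Pool.Agent.H14.F5.Side
import Pool.Graph.R_seed8.Y358.IN.Base
import Pool.Graph.R_seed8.H185C.T11
import Pool.Graph.R_pool_sql_team_seeded_2aa45f1a.Q253.OC.Main

/-!
# Cubic graphs of girth twelve with at most 135 vertices
-/

set_option autoImplicit false
set_option linter.unusedSectionVars false

namespace Pool.Agent.H14.F5

open Finset Pool.Agent.TH676.Z Pool.Agent.Y335.FL Pool.Agent.Y358.IN Pool.Agent.H160R2.HF

variable {V E : Type} [Fintype V] [DecidableEq V] [Fintype E] [DecidableEq E]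

/-- the vertices which are not isolated -/
abbrev VB (src dst : E → V) : Type := {v : V // ∃ y, Adj src dst v y}

/-- the edges which are not loops -/
abbrev EB (src dst : E → V) : Type := {e : E // src e ≠ dst e}

noncomputable instance instVB (src dst : E → V) : Fintype (VB src dst) := by
  classical
  exact Subtype.fintype _

/-- the graph without loops and isolated vertices -/
def GB (src dst : E → V) : OrGraph (VB src dst) (EB src dst) where
  t := fun e => ⟨src e.1, dst e.1, e.2, e.1, Or.inl ⟨rfl, rfl⟩⟩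
  h := fun e => ⟨dst e.1, src e.1, e.2.symm, e.1, Or.inr ⟨rfl, rfl⟩⟩

variable {src dst : E → V}

theorem GB_ne (e : EB src dst) : (GB src dst).t e ≠ (GB src dst).h e := by
  intro h
  exact e.2 (congrArg Subtype.val h)

theorem adj_symm' {x y : V} (h : Adj src dst x y) : Adj src dst y x :=
  ⟨h.1.symm, h.2.imp fun _ he => he.symm⟩

theorem disj_filter (C : Finset (EB src dst)) (v : VB src dst) :
    Disjoint (C.filter (fun e => (GB src dst).t e = v)) (C.filter (fun e => (GB src dst).h e = v)) := by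
  rw [disjoint_left]
  intro e h1 h2
  exact GB_ne e ((mem_filter.1 h1).2.trans (mem_filter.1 h2).2.symm)

theorem GB_cubic (hd : ∀ x, (∃ y, Adj src dst x y) → dg src dst x = 3) : (GB src dst).Cubic := by
  intro v
  unfold OrGraph.deg
  rw [← card_union_of_disjoint (disj_filter univ v), ← hd v.1 v.2]
  unfold dg
  rw [← card_map (Function.Embedding.subtype (fun e : E => src e ≠ dst e))]
  congr 1
  ext e
  rw [mem_map, mem_filter]
  constructor
  · rintro ⟨e', he', rfl⟩
    rw [mem_union, mem_filter, mem_filter] at he'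
    refine ⟨mem_univ _, e'.2, ?_⟩
    rcases he' with ⟨-, h⟩ | ⟨-, h⟩
    · exact Or.inl (congrArg Subtype.val h)
    · exact Or.inr (congrArg Subtype.val h)
  · rintro ⟨-, h1, h2⟩
    refine ⟨⟨e, h1⟩, ?_, rfl⟩
    rw [mem_union, mem_filter, mem_filter]
    rcases h2 with h2 | h2
    · exact Or.inl ⟨mem_univ _, Subtype.ext h2⟩
    · exact Or.inr ⟨mem_univ _, Subtype.ext h2⟩

theorem even_order (hc : (GB src dst).Cubic) : Even (Fintype.card (VB src dst)) := by
  have h1 : ∑ v : VB src dst, (GB src dst).deg univ v = 2 * Fintype.card (EB src dst) := by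
    unfold OrGraph.deg
    rw [sum_add_distrib, ← card_eq_sum_card_fiberwise (fun _ _ => mem_univ _),
      ← card_eq_sum_card_fiberwise (fun _ _ => mem_univ _), card_univ]
    ring
  rw [sum_congr rfl (fun v _ => hc v), sum_const, smul_eq_mul, card_univ] at h1
  rw [Nat.even_iff]
  omega

theorem GB_bridgeless (hbr : Br src dst ∅ ∅) : (GB src dst).Bridgeless := by
  classical
  intro e
  by_contra hn
  set Y : Finset V := univ.filter (fun v => ∃ hv : ∃ y, Adj src dst v y,
    ((GB src dst).sub (univ.erase e)).Reachable ((GB src dst).t e) ⟨v, hv⟩) with hY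
  have hmY : ∀ w : VB src dst, w.1 ∈ Y ↔
      ((GB src dst).sub (univ.erase e)).Reachable ((GB src dst).t e) w := by
    intro w
    rw [hY, mem_filter]
    constructor
    · rintro ⟨-, hv, h⟩
      exact h
    · intro h
      exact ⟨mem_univ _, w.2, h⟩
  have h1 : crs src dst Y = {e.1} := by
    ext g
    rw [mem_singleton]
    unfold crs
    rw [mem_filter]
    constructor
    · rintro ⟨-, hg⟩
      by_contra hne
      by_cases hl : src g = dst g
      · exact hg (by rw [hl])
      · set g' : EB src dst := ⟨g, hl⟩ with hg'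
        have h2 : g' ≠ e := fun h => hne (congrArg Subtype.val h)
        have h3 : ((GB src dst).sub (univ.erase e)).Adj ((GB src dst).t g') ((GB src dst).h g') := by
          unfold OrGraph.sub
          rw [SimpleGraph.fromRel_adj]
          exact ⟨GB_ne g', Or.inl ⟨g', mem_erase.2 ⟨h2, mem_univ _⟩, rfl, rfl⟩⟩
        apply hg
        have h4 := hmY ((GB src dst).t g')
        have h5 := hmY ((GB src dst).h g')
        have e4 : ((GB src dst).t g').1 = src g := rfl
        have e5 : ((GB src dst).h g').1 = dst g := rfl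
        rw [e4] at h4
        rw [e5] at h5
        rw [h4, h5]
        exact ⟨fun h => h.trans h3.reachable, fun h => h.trans h3.symm.reachable⟩
    · rintro rfl
      refine ⟨mem_univ _, ?_⟩
      have h4 := hmY ((GB src dst).t e)
      have h5 := hmY ((GB src dst).h e)
      have e4 : ((GB src dst).t e).1 = src e.1 := rfl
      have e5 : ((GB src dst).h e).1 = dst e.1 := rfl
      rw [e4] at h4
      rw [e5] at h5
      rw [h4, h5]
      intro h
      exact hn (h.1 (SimpleGraph.Reachable.refl _))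
  have h2 := hbr Y (disjoint_empty_right _)
  rw [sdiff_empty, h1, card_singleton] at h2
  exact h2 rfl

/-- the simple graph -/
def SB (src dst : E → V) : SimpleGraph (VB src dst) where
  Adj := fun a b => Adj src dst a.1 b.1
  symm := ⟨fun _ _ h => adj_symm' h⟩
  loopless := ⟨fun _ h => h.1 rfl⟩

theorem SB_adj (a b : VB src dst) : (SB src dst).Adj a b ↔ Adj src dst a.1 b.1 := Iff.rfl

theorem SB_edge (e : EB src dst) : (SB src dst).Adj ((GB src dst).t e) ((GB src dst).h e) :=
  ⟨e.2, e.1, Or.inl ⟨rfl, rfl⟩⟩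

theorem SB_girth (hg : Girth (Adj src dst) 12) : Girth (SB src dst).Adj 12 := by
  intro k hk v hv h
  exact hg k hk (fun i => (v i).1) (fun i j hij => hv (Subtype.ext hij)) h

theorem SB_three (h3 : Three (Adj src dst)) (x y : VB src dst) (h : (SB src dst).Adj x y) :
    ∃ a b c, (SB src dst).Adj x a ∧ (SB src dst).Adj x b ∧ (SB src dst).Adj x c ∧
      a ≠ b ∧ a ≠ c ∧ b ≠ c := by
  obtain ⟨a, b, c, ha, hb, hc, hab, hac, hbc⟩ := h3 x.1 y.1 h
  exact ⟨⟨a, x.1, adj_symm' ha⟩, ⟨b, x.1, adj_symm' hb⟩, ⟨c, x.1, adj_symm' hc⟩, ha, hb, hc,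
    fun h => hab (congrArg Subtype.val h), fun h => hac (congrArg Subtype.val h),
    fun h => hbc (congrArg Subtype.val h)⟩

theorem SB_deg [DecidableRel (SB src dst).Adj] (h3 : Three (Adj src dst)) (v : VB src dst) :
    3 ≤ (SB src dst).degree v := by
  obtain ⟨y, hy⟩ := v.2
  obtain ⟨a, b, c, ha, hb, hc, hab, hac, hbc⟩ := SB_three h3 v ⟨y, v.1, adj_symm' hy⟩ hy
  rw [← SimpleGraph.card_neighborFinset_eq_degree]
  have h4 : ({a, b, c} : Finset (VB src dst)) ⊆ (SB src dst).neighborFinset v := by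
    intro z hz
    rw [mem_insert, mem_insert, mem_singleton] at hz
    rw [SimpleGraph.mem_neighborFinset]
    rcases hz with rfl | rfl | rfl
    · exact ha
    · exact hb
    · exact hc
  calc 3 = ({a, b, c} : Finset (VB src dst)).card := by
        rw [card_insert_of_notMem (by simp [hab, hac]), card_pair hbc]
    _ ≤ _ := card_le_card h4

theorem outN_le [DecidableRel (SB src dst).Adj] (X : Finset (VB src dst)) :
    outN (SB src dst) X ≤ ((GB src dst).cut X).card := by
  unfold outN
  rw [← card_sigma]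
  refine card_le_card_of_surjOn (fun e => if (GB src dst).t e ∈ X then
    ⟨(GB src dst).t e, (GB src dst).h e⟩ else ⟨(GB src dst).h e, (GB src dst).t e⟩) ?_
  rintro ⟨v, w⟩ hp
  rw [mem_coe, mem_sigma, mem_filter] at hp
  obtain ⟨hv, -, hw, hvw⟩ := hp
  simp only at hv hw hvw
  obtain ⟨hne, e, he⟩ := hvw
  have hl : src e ≠ dst e := by
    rcases he with ⟨h1, h2⟩ | ⟨h1, h2⟩
    · rw [h1, h2]; exact hne
    · rw [h1, h2]; exact hne.symm
  rcases he with ⟨h1, h2⟩ | ⟨h1, h2⟩
  · have e1 : (GB src dst).t ⟨e, hl⟩ = v := Subtype.ext h1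
    have e2 : (GB src dst).h ⟨e, hl⟩ = w := Subtype.ext h2
    refine ⟨⟨e, hl⟩, ?_, ?_⟩
    · rw [mem_coe]
      unfold OrGraph.cut
      rw [mem_filter, e1, e2]
      exact ⟨mem_univ _, fun h => hw (h.1 hv)⟩
    · simp only [e1, e2]
      rw [if_pos hv]
  · have e1 : (GB src dst).t ⟨e, hl⟩ = w := Subtype.ext h1
    have e2 : (GB src dst).h ⟨e, hl⟩ = v := Subtype.ext h2
    refine ⟨⟨e, hl⟩, ?_, ?_⟩
    · rw [mem_coe]
      unfold OrGraph.cut
      rw [mem_filter, e1, e2]
      exact ⟨mem_univ _, fun h => hw (h.2 hv)⟩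
    · simp only [e1, e2]
      rw [if_neg hw]

theorem cycle_side [DecidableRel (SB src dst).Adj] (ha : St_ahl)
    (hg : Girth (Adj src dst) 12) (h3 : Three (Adj src dst))
    (hpar : ∀ (e e' : E) (x y : V), x ≠ y → Jn src dst e x y → Jn src dst e' x y → e = e')
    (X : Finset (VB src dst)) (hX : (GB src dst).HasCycleIn X)
    (hk : ((GB src dst).cut X).card ≤ 8) : 69 ≤ X.card := by
  classical
  obtain ⟨C, ⟨e0, he0⟩, hCX, hev⟩ := hX
  set Z : Finset (VB src dst) := univ.filter (fun v => ∃ e ∈ C,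
    (GB src dst).t e = v ∨ (GB src dst).h e = v) with hZ
  have hmZ : ∀ v, v ∈ Z ↔ ∃ e ∈ C, (GB src dst).t e = v ∨ (GB src dst).h e = v := by
    intro v
    rw [hZ, mem_filter]
    exact ⟨fun h => h.2, fun h => ⟨mem_univ _, h⟩⟩
  refine side_large ha (SB src dst) (SB_girth hg) (SB_deg h3) X Z ?_ ⟨_, (hmZ _).2 ⟨e0, he0,
    Or.inl rfl⟩⟩ ?_ ((outN_le X).trans hk)
  · intro v hv
    obtain ⟨e, he, h⟩ := (hmZ v).1 hv
    rcases h with rfl | rfl
    · exact (hCX e he).1
    · exact (hCX e he).2
  · intro v hv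
    have h1 := hev v
    unfold OrGraph.deg at h1
    rw [← card_union_of_disjoint (disj_filter C v), ← filter_or] at h1
    have h2 : 0 < (C.filter (fun e => (GB src dst).t e = v ∨ (GB src dst).h e = v)).card := by
      obtain ⟨e, he, h⟩ := (hmZ v).1 hv
      exact card_pos.2 ⟨e, mem_filter.2 ⟨he, h⟩⟩
    have h4 : 1 < (C.filter (fun e => (GB src dst).t e = v ∨ (GB src dst).h e = v)).card := by
      obtain ⟨m, hm⟩ := h1
      omega
    obtain ⟨e, he, e', he', hne⟩ := one_lt_card.1 h4
    have key : ∀ e ∈ C.filter (fun e => (GB src dst).t e = v ∨ (GB src dst).h e = v),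
        ∃ w, w ∈ Z ∧ (SB src dst).Adj v w ∧ Jn src dst e.1 v.1 w.1 := by
      intro e he
      obtain ⟨heC, h⟩ := mem_filter.1 he
      rcases h with h | h
      · refine ⟨(GB src dst).h e, (hmZ _).2 ⟨e, heC, Or.inr rfl⟩, ?_, ?_⟩
        · rw [← h]; exact SB_edge e
        · exact Or.inl ⟨congrArg Subtype.val h, rfl⟩
      · refine ⟨(GB src dst).t e, (hmZ _).2 ⟨e, heC, Or.inl rfl⟩, ?_, ?_⟩
        · rw [← h]; exact (SB_edge e).symm
        · exact Or.inr ⟨rfl, congrArg Subtype.val h⟩
    obtain ⟨w, hw, hvw, hj⟩ := key e he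
    obtain ⟨w', hw', hvw', hj'⟩ := key e' he'
    have hww : w ≠ w' := by
      rintro rfl
      exact hne (Subtype.ext (hpar _ _ _ _ hvw.1 hj hj'))
    calc 2 = ({w, w'} : Finset (VB src dst)).card := (card_pair hww).symm
      _ ≤ _ := card_le_card (by
        intro z hz
        rw [mem_insert, mem_singleton] at hz
        rw [mem_filter]
        rcases hz with rfl | rfl
        · exact ⟨mem_univ _, hw, hvw⟩
        · exact ⟨mem_univ _, hw', hvw'⟩)

theorem cyc9 (ha : St_ahl) (hg : Girth (Adj src dst) 12) (h3 : Three (Adj src dst))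
    (hpar : ∀ (e e' : E) (x y : V), x ≠ y → Jn src dst e x y → Jn src dst e' x y → e = e')
    (hN : Fintype.card (VB src dst) ≤ 137) (X : Finset (VB src dst))
    (hX : (GB src dst).HasCycleIn X) (hX' : (GB src dst).HasCycleIn Xᶜ) :
    9 ≤ ((GB src dst).cut X).card := by
  classical
  by_contra hlt
  have h1 := cycle_side ha hg h3 hpar X hX (by omega)
  have hc : (GB src dst).cut Xᶜ = (GB src dst).cut X := by
    unfold OrGraph.cut
    refine filter_congr fun e _ => ?_
    rw [mem_compl, mem_compl]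
    tauto
  have h2 := cycle_side ha hg h3 hpar Xᶜ hX' (by rw [hc]; omega)
  have h4 := card_add_card_compl X
  omega

/-- a flow of the graph without loops and isolated vertices -/
theorem flow_of_GB (φ : EB src dst → ℤ) (h1 : (GB src dst).IsFlow φ)
    (h2 : ∀ e, 1 ≤ |φ e| ∧ |φ e| ≤ 4) : FlowOn src dst ∅ ∅ := by
  classical
  set f : E → ZMod 5 := fun e => if h : src e ≠ dst e then ((φ ⟨e, h⟩ : ℤ) : ZMod 5) else 1 with hf
  refine ⟨f, fun v => ?_, by simp, fun e _ _ => ?_⟩
  · unfold bd
    set g : E → ZMod 5 := fun e => (if src e = v then f e else 0) - (if dst e = v then f e else 0)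
      with hgdef
    have s1 : ∑ e, g e = ∑ e ∈ univ.filter (fun e => src e ≠ dst e), g e := by
      refine (sum_subset (filter_subset _ _) fun e _ he => ?_).symm
      rw [mem_filter, not_and_or, not_not] at he
      rcases he with he | he
      · exact (he (mem_univ _)).elim
      · rw [hgdef]
        simp only [he, sub_self]
    rw [s1, Finset.sum_subtype (univ.filter (fun e => src e ≠ dst e)) (p := fun e => src e ≠ dst e)
      (fun e => by simp)]
    by_cases hv : ∃ y, Adj src dst v y
    · have h3 := h1 ⟨v, hv⟩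
      rw [sum_filter, sum_filter, ← sub_eq_zero, ← sum_sub_distrib] at h3
      have h4 := congrArg (fun t : ℤ => (t : ZMod 5)) h3
      simp only [Int.cast_sum, Int.cast_sub, Int.cast_zero] at h4
      refine Eq.trans ?_ h4
      refine sum_congr rfl fun e _ => ?_
      have e1 : ((GB src dst).t e = ⟨v, hv⟩) ↔ src e.1 = v :=
        ⟨fun h => congrArg Subtype.val h, fun h => Subtype.ext h⟩
      have e2 : ((GB src dst).h e = ⟨v, hv⟩) ↔ dst e.1 = v :=
        ⟨fun h => congrArg Subtype.val h, fun h => Subtype.ext h⟩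
      have e3 : f e.1 = ((φ e : ℤ) : ZMod 5) := by
        rw [hf]
        exact dif_pos e.2
      rw [hgdef]
      simp only [e1, e2, e3]
      split_ifs <;> simp
    · refine sum_eq_zero fun e _ => ?_
      have e1 : src e.1 ≠ v := by
        rintro rfl
        exact hv ⟨dst e.1, e.2, e.1, Or.inl ⟨rfl, rfl⟩⟩
      have e2 : dst e.1 ≠ v := by
        rintro rfl
        exact hv ⟨src e.1, e.2.symm, e.1, Or.inr ⟨rfl, rfl⟩⟩
      rw [hgdef]
      simp only [if_neg e1, if_neg e2, sub_self]
  · rw [hf]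
    by_cases h : src e ≠ dst e
    · simp only [dif_pos h]
      intro h0
      rw [ZMod.intCast_zmod_eq_zero_iff_dvd] at h0
      have h5 := h2 ⟨e, h⟩
      obtain ⟨k, hk⟩ := h0
      rw [hk] at h5
      push_cast at h5
      rw [abs_le] at h5
      have h6 : (5 : ℤ) * k ≠ 0 := by
        intro h7
        rw [h7] at h5
        simp at h5
      omega
    · simp only [dif_neg h]
      decide

/-- **Cubic graphs of girth at least twelve with at most 135 vertices.** -/
theorem cubic_flow (ha : St_ahl) (hbr : Br src dst ∅ ∅) (hg : Girth (Adj src dst) 12)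
    (h3 : Three (Adj src dst))
    (hpar : ∀ (e e' : E) (x y : V), x ≠ y → Jn src dst e x y → Jn src dst e' x y → e = e')
    (hd : ∀ x, (∃ y, Adj src dst x y) → dg src dst x = 3)
    (hex : ∃ x y, Adj src dst x y)
    (hN : Fintype.card (VB src dst) ≤ 135) : FlowOn src dst ∅ ∅ := by
  classical
  have hc := GB_cubic hd
  have hev := even_order hc
  obtain ⟨x, y, hxy⟩ := hex
  have h12 : ∀ (w : VB src dst) (c : (SB src dst).Walk w w), c.IsCycle → 12 ≤ c.length :=
    fun w c hcc => Ord.cycle_len (SB_girth hg) (SB src dst) (fun _ _ => Iff.rfl) c hcc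
  have hxy' : (SB src dst).Adj ⟨x, y, hxy⟩ ⟨y, x, adj_symm' hxy⟩ := hxy
  obtain ⟨T, s, hT, hs⟩ := near_bip h12 (SB_three h3) hxy'
  have hT8 : T.card ≤ 3 * 2 + 2 := by
    obtain ⟨m, hm⟩ := hev
    omega
  obtain ⟨φ₂, φ₄, h4⟩ := Pool.Agent.Q253.OC.vertices (GB src dst) hc (GB_bridgeless hbr) 2
    (Or.inr fun X hX hX' => cyc9 ha hg h3 hpar (by omega) X hX hX') T hT8 s
    (fun e h5 h6 => hs _ _ (SB_edge e) h5 h6)
  obtain ⟨φ, h5, h6⟩ := Pool.Agent.H185C.five_flow (GB src dst) φ₂ φ₄ h4
  exact flow_of_GB φ h5 h6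

end Pool.Agent.H14.F5
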