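import Pool.Graph.R_pool_sql_team_seeded_63374d34.N410.FV.Deg
import Pool.Agent.H14.F5.Cubic

/-!
# Nowhere-zero 5-flows and disjoint sets with three boundary edges

The theorem of the library `N410/FV` with a parameter `q` in place of 126 (the proofs of `flow`,
`large_of_packing` and `no_packing` are those of the library), and the proof that `q = 136` is
possible.
-/

set_option autoImplicit false
set_option linter.unusedSectionVars false

namespace Pool.Agent.H14.F5

open Finset Pool.Agent.TH676.Z Pool.Agent.Y335.FL Pool.Agent.Y358.IN Pool.Agent.N410.FV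

variable {V E : Type} [Fintype V] [DecidableEq V] [Fintype E] [DecidableEq E]

theorem poly' {x : ℝ} (h2 : 2 + 13 / 100 ≤ x) (h3 : x ≤ 7 / 3) :
    136 ≤ (3 - x) * (2 * ∑ i ∈ range 6, x ^ i) := by
  rw [sum_range_succ, sum_range_succ, sum_range_succ, sum_range_succ, sum_range_succ,
    sum_range_succ, sum_range_zero]
  obtain ⟨y, hy, rfl⟩ : ∃ y, 13 / 100 ≤ y ∧ x = 2 + y := ⟨x - 2, by linarith, by ring⟩
  have hy0 : 0 ≤ y := by linarith
  have hy3 : y ≤ 1 / 3 := by linarith
  have e2 : y ^ 2 ≤ y / 3 := by nlinarith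
  have e3 : y ^ 3 ≤ y / 9 := by nlinarith [mul_nonneg hy0 hy0]
  have e4 : y ^ 4 ≤ y / 27 := by
    have : y ^ 4 = y ^ 3 * y := by ring
    rw [this]
    nlinarith [pow_nonneg hy0 3]
  have e5 : y ^ 5 ≤ y / 81 := by
    have : y ^ 5 = y ^ 4 * y := by ring
    rw [this]
    nlinarith [pow_nonneg hy0 4]
  have e6 : y ^ 6 ≤ y / 243 := by
    have : y ^ 6 = y ^ 5 * y := by ring
    rw [this]
    nlinarith [pow_nonneg hy0 5]
  have key : (3 - (2 + y)) * (2 * (0 + (2 + y) ^ 0 + (2 + y) ^ 1 + (2 + y) ^ 2 + (2 + y) ^ 3 +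
      (2 + y) ^ 4 + (2 + y) ^ 5)) =
      2 * (63 + 66 * y - 18 * y ^ 2 - 62 * y ^ 3 - 38 * y ^ 4 - 10 * y ^ 5 - y ^ 6) := by ring
  rw [key]
  linarith

/-- **136 vertices of degree three** -/
theorem cubic136 (hc : St_contract) (ha : St_ahl) {src dst : E → V} (hM : MinC src dst)
    (hex : ∃ x y, Adj src dst x y) :
    136 ≤ (univ.filter (fun x => dg src dst x = 3)).card := by
  classical
  have h3 := threeC hc hM
  have hgi := girthC hc hM
  by_cases hcub : ∀ x, (∃ y, Adj src dst x y) → dg src dst x = 3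
  · by_contra hlt
    refine hM.nf (cubic_flow ha hM.br hgi h3 (fun e e' x y hxy h h' => no_par hc hM hxy h h')
      hcub hex ?_)
    have h5 : Fintype.card (VB src dst) ≤ (univ.filter (fun x => dg src dst x = 3)).card := by
      rw [Fintype.card_subtype]
      refine card_le_card fun x hx => ?_
      rw [mem_filter] at hx ⊢
      exact ⟨hx.1, hcub x hx.2⟩
    omega
  push Not at hcub
  obtain ⟨x1, ⟨y1, hxy1⟩, hdx⟩ := hcub
  have hN157 : 157 ≤ (univ.filter (fun v => ∃ y, Adj src dst v y)).card := by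
    have h12 : ∀ (w : VB src dst) (c : (SB src dst).Walk w w), c.IsCycle → 12 ≤ c.length :=
      fun w c hcc => Ord.cycle_len (SB_girth hgi) (SB src dst) (fun _ _ => Iff.rfl) c hcc
    have hxy' : (SB src dst).Adj ⟨x1, y1, hxy1⟩ ⟨y1, x1, adj_symm' hxy1⟩ := hxy1
    have h5 := card_of_four h12 (SB_three h3) hxy'
      (univ.filter (fun w : VB src dst => Adj src dst x1 w.1)) (fun z hz => (mem_filter.1 hz).2) ?_
    · rwa [Fintype.card_subtype] at h5
    · have h6 : 3 ≤ dg src dst x1 := Ord.three_dg h3 hxy1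
      have h7 := dg_le_nb hc hM x1
      have h8 : (nb src dst x1).card ≤
          (univ.filter (fun w : VB src dst => Adj src dst x1 w.1)).card := by
        rw [← card_map (Function.Embedding.subtype _)]
        refine card_le_card fun w hw => ?_
        have hw' : Adj src dst x1 w := (mem_filter.1 hw).2
        rw [mem_map]
        exact ⟨⟨w, x1, adj_symm' hw'⟩, mem_filter.2 ⟨mem_univ _, hw'⟩, rfl⟩
      omega
  set B : Finset V := univ.filter (fun v => ∃ y, Adj src dst v y) with hB
  have hmB : ∀ v, v ∈ B ↔ ∃ y, Adj src dst v y := fun v => by simp [hB]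
  let G : SimpleGraph B :=
    { Adj := fun a b => Adj src dst a b
      symm := ⟨fun a b h => GiAux.adj_symm h⟩
      loopless := ⟨fun a h => h.1 rfl⟩ }
  have hGA : ∀ a b : B, G.Adj a b ↔ Adj src dst a b := fun a b => Iff.rfl
  obtain ⟨x0, y0, hxy0⟩ := hex
  haveI : Nonempty B := ⟨⟨x0, (hmB x0).2 ⟨y0, hxy0⟩⟩⟩
  have hdeg : ∀ a : B, dg src dst a ≤ G.degree a := by
    intro a
    refine (dg_le_nb hc hM a).trans ?_
    rw [← G.card_neighborFinset_eq_degree]
    have h5 : nb src dst a ⊆ (G.neighborFinset a).map (Function.Embedding.subtype _) := by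
      intro w hw
      have hw' : Adj src dst a w := (mem_filter.1 hw).2
      have hwB : w ∈ B := (hmB w).2 ⟨a, GiAux.adj_symm hw'⟩
      rw [mem_map]
      exact ⟨⟨w, hwB⟩, by rw [SimpleGraph.mem_neighborFinset, hGA]; exact hw', rfl⟩
    have h6 := card_le_card h5
    rwa [card_map] at h6
  have hdg3 : ∀ a : B, 3 ≤ dg src dst a := by
    intro a
    obtain ⟨y, hy⟩ := (hmB a).1 a.2
    exact Ord.three_dg h3 hy
  have hdeg3 : ∀ a : B, 3 ≤ G.degree a := fun a => (hdg3 a).trans (hdeg a)
  have hahl := ha B G (fun a => by have := hdeg3 a; omega) (by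
    intro k hk v hv h
    exact hgi k hk (fun i => (v i : V)) (fun i j hij => hv (Subtype.ext hij)) h)
  -- sparsity
  have hB2 : 2 ≤ B.card := by
    have h5 : ({x0, y0} : Finset V) ⊆ B := by
      intro z hz
      rw [mem_insert, mem_singleton] at hz
      rcases hz with rfl | rfl
      · exact (hmB _).2 ⟨y0, hxy0⟩
      · exact (hmB _).2 ⟨x0, GiAux.adj_symm hxy0⟩
    have h6 := card_le_card h5
    rwa [card_pair hxy0.1] at h6
  have hsp := sparse hM B hB2
  have heB : ein src dst B = ein src dst univ := by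
    ext e
    rw [mem_ein, mem_ein]
    constructor
    · rintro ⟨_, _, h⟩; exact ⟨mem_univ _, mem_univ _, h⟩
    · rintro ⟨_, _, h⟩
      exact ⟨(hmB _).2 ⟨dst e, h, e, Or.inl ⟨rfl, rfl⟩⟩,
        (hmB _).2 ⟨src e, h.symm, e, Or.inr ⟨rfl, rfl⟩⟩, h⟩
  have hsumN : ∑ a ∈ B, dg src dst a = 2 * (ein src dst B).card := by
    rw [heB, ← sum_dg]
    refine sum_subset (subset_univ _) fun y _ hy => ?_
    by_contra h0
    have h1 : 0 < (univ.filter (fun e => src e ≠ dst e ∧ (src e = y ∨ dst e = y))).card :=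
      Nat.pos_of_ne_zero h0
    obtain ⟨e, he⟩ := card_pos.1 h1
    obtain ⟨_, h4, h5⟩ := mem_filter.1 he
    apply hy
    rcases h5 with h5 | h5
    · exact (hmB _).2 ⟨dst e, h5 ▸ h4, e, Or.inl ⟨h5, rfl⟩⟩
    · exact (hmB _).2 ⟨src e, h5 ▸ h4.symm, e, Or.inr ⟨rfl, h5⟩⟩
  set n3 : ℕ := (B.filter (fun x => dg src dst x = 3)).card with hn3
  -- count
  have hcnt : 4 * B.card ≤ ∑ a ∈ B, dg src dst a + n3 := by
    have h5 : ∑ _a ∈ B, 4 ≤ ∑ a ∈ B, (dg src dst a + if dg src dst a = 3 then 1 else 0) := by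
      refine sum_le_sum fun a ha => ?_
      have h6 := hdg3 ⟨a, ha⟩
      change 3 ≤ dg src dst a at h6
      split_ifs with h7 <;> omega
    rw [sum_const, smul_eq_mul, sum_add_distrib, ← card_filter] at h5
    omega
  have hgoal : (136 : ℝ) ≤ n3 := by
    set N : ℝ := (B.card : ℝ) with hN
    have hNc : (Fintype.card B : ℝ) = N := by rw [Fintype.card_coe]
    set m : ℝ := (G.edgeFinset.card : ℝ) with hm
    set S : ℝ := ((∑ a ∈ B, dg src dst a : ℕ) : ℝ) with hS
    have hN0 : 0 < N := by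
      rw [hN]
      exact_mod_cast (by omega : 0 < B.card)
    rw [hNc] at hahl
    have hsum : ∑ a : B, (G.degree a : ℝ) = 2 * m := by
      rw [hm]
      exact_mod_cast G.sum_degrees_eq_twice_card_edges
    have hSm : S ≤ 2 * m := by
      rw [← hsum, hS, ← sum_coe_sort B (fun a => dg src dst a)]
      push_cast
      exact sum_le_sum fun a _ => by exact_mod_cast hdeg a
    have hS3 : 3 * N ≤ S := by
      have h5 : 3 * B.card ≤ ∑ a ∈ B, dg src dst a := by
        rw [mul_comm, ← smul_eq_mul, ← sum_const]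
        exact sum_le_sum fun a ha => hdg3 ⟨a, ha⟩
      rw [hN, hS]
      exact_mod_cast h5
    have hSup : 3 * S ≤ 10 * N := by
      have h5 : 3 * ∑ a ∈ B, dg src dst a ≤ 10 * B.card := by omega
      rw [hN, hS]
      exact_mod_cast h5
    have hcnt' : 4 * N ≤ S + n3 := by
      rw [hN, hS]
      exact_mod_cast hcnt
    set x : ℝ := S / N - 1 with hx
    have hx2 : 2 ≤ x := by
      rw [hx]
      have : 3 ≤ S / N := by rwa [le_div_iff₀ hN0]
      linarith
    have hx3 : x ≤ 7 / 3 := by
      rw [hx]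
      have : S / N ≤ 10 / 3 := by
        rw [div_le_iff₀ hN0]
        linarith
      linarith
    have hxx : x ≤ 2 * m / N - 1 := by
      rw [hx]
      have : S / N ≤ 2 * m / N := div_le_div_of_nonneg_right hSm hN0.le
      linarith
    have hmono : 2 * ∑ i ∈ range 6, x ^ i ≤ N := by
      refine le_trans ?_ hahl
      refine mul_le_mul_of_nonneg_left (sum_le_sum fun i _ => ?_) (by norm_num)
      exact pow_le_pow_left₀ (by linarith) hxx i
    have hN157' : (157 : ℝ) ≤ N := by
      rw [hN]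
      exact_mod_cast hN157
    have h9 : (136 : ℝ) ≤ (3 - x) * N := by
      by_cases hx13 : x ≤ 2 + 13 / 100
      · have h5 : (87 / 100 : ℝ) * 157 ≤ (3 - x) * N :=
          mul_le_mul (by linarith) hN157' (by norm_num) (by linarith)
        norm_num at h5
        linarith
      · exact (poly' (by linarith) hx3).trans (mul_le_mul_of_nonneg_left hmono (by linarith))
    have h10 : (3 - x) * N = 4 * N - S := by
      rw [hx]
      field_simp
      ring
    linarith
  have hgoal' : 136 ≤ n3 := by exact_mod_cast hgoal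
  exact hgoal'.trans (card_le_card (filter_subset_filter _ (subset_univ _)))



/-- every partition into classes with at least three boundary edges, of which at least `q` have
exactly three, has at least `5 (k - 1) / 3` crossing edges -/
def Large (q : ℕ) (s d : E → V) (F : Finset E) : Prop :=
  ∀ (k : ℕ) (p : V → Fin k), Function.Surjective p → (∀ e ∈ F, p (s e) = p (d e)) →
    (∀ i, 3 ≤ (crs s d (fib p i)).card) →
    q ≤ (univ.filter (fun i => (crs s d (fib p i)).card = 3)).card →
    5 * k ≤ 3 * (univ.filter (fun e => p (s e) ≠ p (d e))).card + 5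

/-- **Flows modulo five.** -/
theorem flow (hq : St_quot) (hc : St_contract) (q : ℕ)
    (h3q : ∀ (V E : Type) [Fintype V] [DecidableEq V] [Fintype E] [DecidableEq E] (src dst : E → V),
      MinC src dst → (∃ x y, Adj src dst x y) → q ≤ (univ.filter (fun x => dg src dst x = 3)).card)
    (s d : E → V) (F : Finset E) (hbr : Br s d ∅ ∅) (h : Large q s d F) : FlowOn s d ∅ F := by
  classical
  obtain ⟨W, _, _, r, hr, hrF, hl, -⟩ := hq V E s d F
  have h0 : FlowOn (r ∘ s) (r ∘ d) ∅ ∅ → FlowOn s d ∅ F := fun h => by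
    have h1 := hl ∅ h
    rwa [union_empty] at h1
  apply h0
  by_contra hn
  have hbr' : Br (r ∘ s) (r ∘ d) ∅ ∅ := by
    intro Y _
    have h1 := hbr (univ.filter (fun v => r v ∈ Y)) (disjoint_empty_right _)
    rw [sdiff_empty] at h1 ⊢
    have h2 : crs (r ∘ s) (r ∘ d) Y = crs s d (univ.filter (fun v => r v ∈ Y)) := by
      ext e
      rw [mem_crs', mem_crs', mem_filter, mem_filter]
      simp
    rw [h2]
    exact h1
  obtain ⟨s1, d1, ⟨ρ, rfl, rfl⟩, hM⟩ := exists_minC (ccR (r ∘ s) (r ∘ d)) (r ∘ s) (r ∘ d)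
    ⟨id, rfl, rfl⟩ hbr' hn
  set P : V → W := ρ ∘ r with hP
  have e1 : ρ ∘ r ∘ s = P ∘ s := rfl
  have e2 : ρ ∘ r ∘ d = P ∘ d := rfl
  rw [e1, e2] at hM
  by_cases hloop : ∀ e, (P ∘ s) e = (P ∘ d) e
  · exact hM.nf (flow_of_loops hloop)
  push Not at hloop
  obtain ⟨e0, he0⟩ := hloop
  have hex : ∃ x y, Adj (P ∘ s) (P ∘ d) x y :=
    ⟨(P ∘ s) e0, (P ∘ d) e0, he0, e0, Or.inl ⟨rfl, rfl⟩⟩
  have h126 := h3q _ _ _ _ hM hex
  have h3 := threeC hc hM
  -- the vertices which are not isolated
  set B : Finset W := univ.filter (fun x => dg (P ∘ s) (P ∘ d) x ≠ 0) with hB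
  have hmB : ∀ x, x ∈ B ↔ dg (P ∘ s) (P ∘ d) x ≠ 0 := fun x => by simp [hB]
  have hends : ∀ e, P (s e) ≠ P (d e) → P (s e) ∈ B ∧ P (d e) ∈ B := by
    intro e he
    constructor
    · rw [hmB]
      exact (card_pos.2 ⟨e, mem_filter.2 ⟨mem_univ _, he, Or.inl rfl⟩⟩).ne'
    · rw [hmB]
      exact (card_pos.2 ⟨e, mem_filter.2 ⟨mem_univ _, he, Or.inr rfl⟩⟩).ne'
  have hdg3 : ∀ x ∈ B, 3 ≤ dg (P ∘ s) (P ∘ d) x := by
    intro x hx
    rw [hmB] at hx
    obtain ⟨e, he⟩ := card_pos.1 (Nat.pos_of_ne_zero hx)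
    obtain ⟨-, h4, h5⟩ := mem_filter.1 he
    have h6 : ∃ y, Adj (P ∘ s) (P ∘ d) x y := by
      rcases h5 with h5 | h5
      · exact ⟨(P ∘ d) e, by rw [← h5]; exact h4, e, Or.inl ⟨h5, rfl⟩⟩
      · exact ⟨(P ∘ s) e, by rw [← h5]; exact h4.symm, e, Or.inr ⟨rfl, h5⟩⟩
    obtain ⟨y, hy⟩ := h6
    exact Ord.three_dg h3 hy
  obtain ⟨hy0, hz0⟩ := hends e0 he0
  set y0 := P (s e0) with hy0'
  set k := B.card with hk
  set φ : B ≃ Fin k := B.equivFin with hφ
  set qq : V → W := fun v => if P v ∈ B then P v else y0 with hq'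
  have hqB : ∀ v, qq v ∈ B := by
    intro v
    by_cases h1 : P v ∈ B
    · simp only [hq', if_pos h1]; exact h1
    · simp only [hq', if_neg h1]; exact hy0
  have hqe : ∀ e, P (s e) ≠ P (d e) → qq (s e) = P (s e) ∧ qq (d e) = P (d e) := by
    intro e he
    obtain ⟨h1, h2⟩ := hends e he
    exact ⟨if_pos h1, if_pos h2⟩
  have hqe' : ∀ e, P (s e) = P (d e) → qq (s e) = qq (d e) := by
    intro e he
    simp only [hq', he]
  have hqiff : ∀ e, qq (s e) ≠ qq (d e) ↔ P (s e) ≠ P (d e) := by
    intro e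
    constructor
    · intro h1 h2
      exact h1 (hqe' e h2)
    · intro h1
      rw [(hqe e h1).1, (hqe e h1).2]
      exact h1
  set p : V → Fin k := fun v => φ ⟨qq v, hqB v⟩ with hp
  have hpiff : ∀ e, p (s e) ≠ p (d e) ↔ P (s e) ≠ P (d e) := by
    intro e
    rw [← hqiff e]
    constructor
    · intro h1 h2
      exact h1 (congrArg φ (Subtype.ext h2))
    · intro h1 h2
      exact h1 (congrArg Subtype.val (φ.injective h2))
  have hpi : ∀ i v, p v = i ↔ qq v = (φ.symm i).1 := by
    intro i v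
    constructor
    · intro h1
      rw [← h1]
      simp [hp]
    · intro h1
      have h2 : (⟨qq v, hqB v⟩ : B) = φ.symm i := Subtype.ext h1
      simp only [hp, h2, Equiv.apply_symm_apply]
  have hcrs : ∀ i, crs s d (fib p i) = univ.filter (fun e => (P ∘ s) e ≠ (P ∘ d) e ∧
      ((P ∘ s) e = (φ.symm i).1 ∨ (P ∘ d) e = (φ.symm i).1)) := by
    intro i
    ext e
    rw [mem_crs', mem_fib, mem_fib, hpi, hpi, mem_filter]
    simp only [mem_univ, true_and, Function.comp]
    by_cases h1 : P (s e) = P (d e)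
    · have h2 := hqe' e h1
      rw [h2]
      simp [h1]
    · rw [(hqe e h1).1, (hqe e h1).2]
      have h5 : ∀ y, P (s e) = y → P (d e) = y → False := fun y h2 h3 => h1 (h2.trans h3.symm)
      have h6 := h5 (φ.symm i).1
      by_cases h7 : P (s e) = (φ.symm i).1 <;> by_cases h8 : P (d e) = (φ.symm i).1
      · exact (h6 h7 h8).elim
      · simp [h7, h8]
        intro h9
        exact h8 h9.symm
      · simp [h7, h8]
      · simp [h7, h8]
  have hcard : ∀ i, (crs s d (fib p i)).card = dg (P ∘ s) (P ∘ d) (φ.symm i).1 := by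
    intro i
    rw [hcrs]
    rfl
  have hcr : (univ.filter (fun e => p (s e) ≠ p (d e))) = ein (P ∘ s) (P ∘ d) B := by
    ext e
    rw [mem_filter, mem_ein, hpiff]
    simp only [mem_univ, true_and, Function.comp]
    exact ⟨fun h1 => ⟨(hends e h1).1, (hends e h1).2, h1⟩, fun h1 => h1.2.2⟩
  have hB2 : 2 ≤ B.card := by
    have h5 : ({P (s e0), P (d e0)} : Finset W) ⊆ B := by
      intro z hz
      rw [mem_insert, mem_singleton] at hz
      rcases hz with rfl | rfl
      · exact hy0
      · exact hz0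
    have h6 := card_le_card h5
    rwa [card_pair (show P (s e0) ≠ P (d e0) from he0)] at h6
  have hsp := sparse hM B hB2
  have hmain := h k p (fun i => by
      have h1 := (φ.symm i).2
      rw [hmB] at h1
      obtain ⟨e, he⟩ := card_pos.1 (Nat.pos_of_ne_zero h1)
      obtain ⟨-, h4, h5⟩ := mem_filter.1 he
      rcases h5 with h5 | h5
      · exact ⟨s e, (hpi _ _).2 (by rw [(hqe e h4).1]; exact h5)⟩
      · exact ⟨d e, (hpi _ _).2 (by rw [(hqe e h4).2]; exact h5)⟩)
    (fun e he => by
      by_contra h1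
      have h2 := (hpiff e).1 h1
      apply h2
      simp only [hP, Function.comp, hrF e he])
    (fun i => by rw [hcard]; exact hdg3 _ (φ.symm i).2)
    (by
      refine h126.trans ?_
      refine card_le_card_of_injOn (fun x => if hx : x ∈ B then φ ⟨x, hx⟩ else φ ⟨y0, hy0⟩) ?_ ?_
      · intro x hx
        have hx3 := (mem_filter.1 (mem_coe.1 hx)).2
        have hxB : x ∈ B := by rw [hmB, hx3]; norm_num
        simp only [dif_pos hxB]
        rw [mem_coe, mem_filter]
        refine ⟨mem_univ _, ?_⟩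
        rw [hcard, Equiv.symm_apply_apply]
        exact hx3
      · intro x hx x' hx' hxx
        have hx3 := (mem_filter.1 (mem_coe.1 hx)).2
        have hxB : x ∈ B := by rw [hmB, hx3]; norm_num
        have hx3' := (mem_filter.1 (mem_coe.1 hx')).2
        have hxB' : x' ∈ B := by rw [hmB, hx3']; norm_num
        simp only [dif_pos hxB, dif_pos hxB'] at hxx
        exact congrArg Subtype.val (φ.injective hxx))
  rw [hcr] at hmain
  omega

/-- there are no `q` disjoint sets with three boundary edges -/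
theorem large_of_packing (q : ℕ) (s d : E → V) (F : Finset E)
    (h : ∀ X : Fin q → Finset V, (∀ i j, i ≠ j → Disjoint (X i) (X j)) →
      ∃ i, ¬ Disjoint (crs s d (X i)) F ∨ (crs s d (X i)).card ≠ 3) : Large q s d F := by
  classical
  intro k p _ hF _ h126
  exfalso
  obtain ⟨I, hI, hIc⟩ := exists_subset_card_eq h126
  set φ := (Finset.equivFinOfCardEq hIc).symm with hφ
  obtain ⟨i, hi⟩ := h (fun j => fib p (φ j)) (fun i j hij => by
    rw [disjoint_left]
    intro v hv hv'
    rw [mem_fib] at hv hv'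
    exact hij (φ.injective (Subtype.ext (hv.symm.trans hv'))))
  rcases hi with hi | hi
  · apply hi
    rw [disjoint_left]
    intro e he heF
    rw [mem_crs', mem_fib, mem_fib, hF e heF] at he
    exact he Iff.rfl
  · exact hi (mem_filter.1 (hI (φ i).2)).2


/-- dense graphs have no `q` disjoint sets with three boundary edges -/
theorem no_packing (q : ℕ) {s t : E → V} {k : ℕ} (hk : 4 ≤ k) (h : Nbrs s t k)
    (hV : Fintype.card V < q * (k + 1)) (X : Fin q → Finset V)
    (hX : ∀ i j, i ≠ j → Disjoint (X i) (X j)) : ∃ i, (crs s t (X i)).card ≠ 3 := by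
  classical
  by_contra hc
  push Not at hc
  have h1 : ∀ i, k + 1 ≤ (X i).card := by
    intro i
    by_contra h2
    have h3 : 1 ≤ (X i).card := by
      by_contra h4
      have h5 : X i = ∅ := card_eq_zero.1 (by omega)
      have h6 := hc i
      rw [h5] at h6
      simp [crs] at h6
    have h7 := small_bdy h (X i) h3 (by omega)
    rw [hc i] at h7
    omega
  have h2 : q * (k + 1) ≤ (univ.biUnion X).card := by
    rw [card_biUnion (fun i _ j _ hij => hX i j hij)]
    have h3 : ∑ _i : Fin q, (k + 1) ≤ ∑ i, (X i).card := sum_le_sum fun i _ => h1 i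
    rw [sum_const, card_univ, Fintype.card_fin, smul_eq_mul] at h3
    exact h3
  have h3 : (univ.biUnion X).card ≤ Fintype.card V := card_le_univ _
  omega



end Pool.Agent.H14.F5
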