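import Pool.Graph.R_pool_sql_team_seeded_2aa45f1a.Q287.FL.Around
import Pool.Agent.H14.F5.Main

/-!
# Surfaces and few circuits outside balls, with at least 204 edges

The theorems `surfaces` and `circuits` of the library module `Q287/FL/Around` (their proofs are
adapted), with the bound 204 = 3 * 136 / 2 instead of 189 = 3 * 126 / 2 for the number of the edges of a
minimal counterexample.
-/

set_option autoImplicit false
set_option linter.unusedSectionVars false

namespace Pool.Agent.H14.F5.Outside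

open Finset Pool.Agent.TH676.Z Pool.Agent.Y335.FL Pool.Agent.Y358.IN Edge62
open Pool.Agent.Q287.FL.Around

variable {V E : Type} [Fintype V] [DecidableEq V] [Fintype E] [DecidableEq E]

/-- a minimal counterexample has at least 204 edges -/
theorem NL_204 {s d : E → V} (hM : MinC s d) (hex : ∃ x y, Adj s d x y) :
    204 ≤ (NL s d).card := by
  classical
  have h1 := Pool.Agent.H14.F5.cubic136 contract_all ahl hM hex
  have h2 := Pool.Agent.N410.FV.sum_dg s d
  have h3 : Pool.Agent.N410.FV.ein s d univ = NL s d := by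
    ext e
    rw [Pool.Agent.N410.FV.mem_ein, mem_NL]
    simp
  rw [h3] at h2
  have h4 : ∑ x ∈ univ.filter (fun x => dg s d x = 3), dg s d x =
      (univ.filter (fun x => dg s d x = 3)).card * 3 := by
    rw [← smul_eq_mul, ← sum_const]
    exact sum_congr rfl fun x hx => (mem_filter.1 hx).2
  have h5 : ∑ x ∈ univ.filter (fun x => dg s d x = 3), dg s d x ≤ ∑ x, dg s d x :=
    sum_le_sum_of_subset (filter_subset _ _)
  omega

/-- a class closed under contractions without counterexamples with at least 204 edges -/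
theorem frame {V E : Type} [Fintype V] [DecidableEq V] [Fintype E] [DecidableEq E]
    (Cl : (E → V) → (E → V) → Prop) (hCl : CC Cl)
    (hfin : ∀ s d : E → V, Cl s d → Gd s d → 204 ≤ (NL s d).card →
      ∀ x y, Adj s d x y → False)
    (src dst : E → V) (hcl : Cl src dst) (hbr : Br src dst ∅ ∅) : FlowOn src dst ∅ ∅ := by
  classical
  by_contra hn
  obtain ⟨s, d, hS, hM⟩ := exists_minC hCl src dst hcl hbr hn
  have h3 := threeC contract_all hM
  have hgi := girthC contract_all hM
  by_cases hl : ∀ e, s e = d e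
  · exact hM.nf (flow_of_loops hl)
  push Not at hl
  obtain ⟨e, he⟩ := hl
  have hadj : Adj s d (s e) (d e) := ⟨he, e, Or.inl ⟨rfl, rfl⟩⟩
  exact hfin s d hS ⟨hgi, fun e e' x y hxy h h' => no_par contract_all hM hxy h h', h3⟩
    (NL_204 hM ⟨_, _, hadj⟩) (s e) (d e) hadj

/-- the numerical contradiction for surfaces -/
theorem numA {m n r z h X e t W W' : ℕ} (hX : X = m + t) (h1 : m + 1 ≤ z + n)
    (h2 : 3 * n ≤ 2 * m + e) (h4 : 1 ≤ r → 12 * (r + 1) ≤ 2 * m) (h5 : z ≤ r + h)
    (h6 : 204 ≤ X) (h7 : 63 * (2 * e + t) ≤ W * X) (h8 : 63 * (e + t) ≤ W' * X)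
    (hW : 63 * h + 34 * W ≤ 2267) (hW1 : W ≤ 63) (hW2 : 63 * h + 68 * W' ≤ 4346) : False := by
  rcases Nat.eq_zero_or_pos r with hr | hr
  · -- 3 m + 3 ≤ 3 h + 2 m + e
    have h9 : X + 3 ≤ 3 * h + (e + t) := by omega
    have h10 : 63 * X + 189 ≤ 189 * h + W' * X := by omega
    have h11 : W' ≤ 63 := by omega
    nlinarith [Nat.mul_le_mul_left (63 - W') h6, Nat.sub_add_cancel h11]
  · have h9 := h4 hr
    have h10 : X + 12 ≤ 6 * h + (2 * e + t) := by omega
    have h11 : 63 * X + 756 ≤ 378 * h + W * X := by omega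
    nlinarith [Nat.mul_le_mul_left (63 - W) h6, Nat.sub_add_cancel hW1]

/-- the numerical contradiction for the cyclomatic number -/
theorem numB {m n z X e t W' : ℕ} (hX : X = m + t) (h1 : m + 1 ≤ z + n)
    (h2 : 3 * n ≤ 2 * m + e) (h6 : 204 ≤ X) (h8 : 63 * (e + t) ≤ W' * X)
    (hW : 63 * z + 68 * W' ≤ 4346) (hW1 : W' ≤ 63) : False := by
  have h9 : X + 3 ≤ 3 * z + (e + t) := by omega
  have h10 : 63 * X + 189 ≤ 189 * z + W' * X := by omega
  nlinarith [Nat.mul_le_mul_left (63 - W') h6, Nat.sub_add_cancel hW1]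

/-- **surfaces outside balls** -/
theorem surfaces {k : ℕ} (s : Fin k → ℕ) (h : ℕ)
    (hW : 63 * h + 34 * ∑ i, (2 ^ (s i + 2) - 1) ≤ 2267)
    (hW1 : ∑ i, (2 ^ (s i + 2) - 1) ≤ 63) (src dst : E → V)
    (hcl : Cl (fun src dst F => Mac h src dst F) s src dst) (hbr : Br src dst ∅ ∅) :
    FlowOn src dst ∅ ∅ := by
  classical
  refine frame _ (ccCl (minor_mac h) s) ?_ src dst hcl hbr
  rintro S D ⟨c, T0, hT0, hM0⟩ hG h6 x y hxy
  set T := UB S D c s with hT
  have hsub : T0 ⊆ T := by
    intro v hv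
    obtain ⟨i, hi⟩ := hT0 v hv
    exact mem_biUnion.2 ⟨i, mem_univ _, hi⟩
  have hM : Mac h S D (ES S D T) := by
    refine (minor_mac h).sub S D _ _ hM0 ?_
    intro e he
    unfold ES at he ⊢
    rw [mem_filter] at he ⊢
    exact ⟨he.1, he.2.1, fun h => he.2.2.1 (hsub h), fun h => he.2.2.2 (hsub h)⟩
  obtain ⟨l, K, k1, k2, k3⟩ := hM
  have hs := pow_le hW1
  have h7 := sums1 hG c s hs
  have h8 := sums2 hG c s hs
  rw [← hT] at h7 h8
  have h9 := es_tc (src := S) (dst := D) T
  have h10 := Pool.Agent.Q287.FL.Around.sum_comp s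
  have hW2 : 63 * h + 68 * ∑ i, (3 * 2 ^ (s i) - 1) ≤ 4346 := by
    rcases Nat.eq_zero_or_pos k with hk | hk
    · subst hk
      simp only [univ_eq_empty, sum_empty, mul_zero, add_zero] at hW ⊢
      omega
    · omega
  have hne : (VS S D T).Nonempty := vs_ne hG hxy c s hs (by omega)
  have e1 := dim V E S D (ES S D T) (VS S D T) hne (Surfx.hends T)
  have e2 := deg_out hG T
  have e4 := facesG V E S D (ES S D T) l 12 K k1 k2
    (even_all V E S D (ES S D T) 12 hG.g hG.p (by
      intro e he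
      unfold ES at he
      rw [mem_filter] at he
      exact he.2.1))
  exact numA h9 e1 e2 e4 k3 h6 h7 h8 hW hW1 hW2

/-- **few circuits outside balls** -/
theorem circuits {k : ℕ} (s : Fin k → ℕ) (N : ℕ)
    (hW : 63 * N + 68 * ∑ i, (3 * 2 ^ (s i) - 1) ≤ 4346)
    (src dst : E → V)
    (hcl : Cl (fun src dst F => Module.finrank (ZMod 2) (ZF src dst F) ≤ N) s src dst)
    (hbr : Br src dst ∅ ∅) : FlowOn src dst ∅ ∅ := by
  classical
  refine frame _ (ccCl (minor_cyc N) s) ?_ src dst hcl hbr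
  rintro S D ⟨c, T0, hT0, hM0⟩ hG h6 x y hxy
  set T := UB S D c s with hT
  have hsub : T0 ⊆ T := by
    intro v hv
    obtain ⟨i, hi⟩ := hT0 v hv
    exact mem_biUnion.2 ⟨i, mem_univ _, hi⟩
  have hM : Module.finrank (ZMod 2) (ZF S D (ES S D T)) ≤ N := by
    refine (minor_cyc N).sub S D _ _ hM0 ?_
    intro e he
    unfold ES at he ⊢
    rw [mem_filter] at he ⊢
    exact ⟨he.1, he.2.1, fun h => he.2.2.1 (hsub h), fun h => he.2.2.2 (hsub h)⟩
  have hs := pow_le' (s := s) (by omega)
  have h8 := sums2 hG c s hs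
  rw [← hT] at h8
  have h9 := es_tc (src := S) (dst := D) T
  have e2 := deg_out hG T
  have hne : (VS S D T).Nonempty := vs_ne hG hxy c s hs (by omega)
  have e1 := dim V E S D (ES S D T) (VS S D T) hne (Surfx.hends T)
  exact numB h9 e1 e2 h6 h8 (by omega) (by omega)

end Pool.Agent.H14.F5.Outside
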