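import Pool.Graph.R_seed8.R890.FL.Cross
import Pool.Agent.H14.F5.Outside

/-!
# Graphs which can be embedded after the deletion of some edges

The theorem `cross` of the library module `R890/FL/Cross` (its proof is adapted) with the bound 69
instead of 64 for the cyclomatic number of a counterexample.
-/

set_option autoImplicit false
set_option linter.unusedSectionVars false

namespace Pool.Agent.H14.F5.Crossings

open Finset Pool.Agent.TH676.Z Pool.Agent.Y335.FL Pool.Agent.Y358.IN Pool.Agent.R890.FL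

/-- cyclomatic number at most 68 -/
theorem cyc68 (V E : Type) [Fintype V] [DecidableEq V] [Fintype E] [DecidableEq E]
    (src dst : E → V)
    (h : Module.finrank (ZMod 2) (ZF src dst (ES src dst ∅)) ≤ 68) (hb : Br src dst ∅ ∅) :
    FlowOn src dst ∅ ∅ :=
  Pool.Agent.H14.F5.Outside.circuits (k := 0) (fun i => i.elim0) 68
    (by simp only [univ_eq_empty, sum_empty]; norm_num) src dst
    ⟨fun i => i.elim0, ∅, fun v hv => absurd hv (notMem_empty v), h⟩ hb

/-- the numerical contradiction -/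
theorem numF {m m' f n c c' r k h : ℕ} (h1 : m + 1 ≤ c + n) (h2 : 3 * n ≤ 2 * m)
    (h3 : c ≤ c' + f) (h4 : c' ≤ r + h) (h5 : 1 ≤ r → 12 * (r + 1) ≤ 2 * m') (h6 : m = m' + f)
    (h7 : f ≤ k) (h8 : 69 ≤ c) (hk : 5 * k + 6 * h ≤ 215) : False := by
  rcases Nat.eq_zero_or_pos r with hr | hr
  · omega
  · have := h5 hr
    omega

open ApMCx ApsMCx in
/-- **5-flows**: graphs embeddable after the deletion of edges -/
theorem cross (V E : Type) [Fintype V]
    [DecidableEq V] [Fintype E] [DecidableEq E] (src dst : E → V) (k h : ℕ)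
    (hk : 5 * k + 6 * h ≤ 215) (hA : EK k h src dst) (hb : Br src dst ∅ ∅) :
    FlowOn src dst ∅ ∅ := by
  classical
  by_contra hn
  obtain ⟨s, d, F, hF, ⟨l, K, k1, k2, k3⟩, hM⟩ := exists_SC src dst hA hb hn
  by_cases hno : ∀ e, s e = d e
  · exact hM.nf (flow_of_loops hno)
  push Not at hno
  obtain ⟨e0, he0⟩ := hno
  have hES : ES s d ∅ = Crit.nl s d := by
    ext e
    simp [ES, Crit.mem_nl]
  have h64 : 69 ≤ Module.finrank (ZMod 2) (ZF s d (Crit.nl s d)) := by
    by_contra hcon
    push Not at hcon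
    refine hM.nf (cyc68 V E s d ?_ hM.br)
    rw [hES]
    omega
  have h1 := dim V E s d (Crit.nl s d)
    (univ.filter (fun x => ∃ e, s e ≠ d e ∧ (s e = x ∨ d e = x)))
    ⟨s e0, mem_filter.2 ⟨mem_univ _, e0, he0, Or.inl rfl⟩⟩ (by
      intro e he
      rw [Crit.mem_nl] at he
      exact ⟨mem_filter.2 ⟨mem_univ _, e, he, Or.inl rfl⟩,
        mem_filter.2 ⟨mem_univ _, e, he, Or.inr rfl⟩⟩)
  have h2 := degF hM
  have h3 := dim_del s d (Crit.nl s d) F
  have hlp : ∀ e ∈ Crit.nl s d \ F, s e = s e ∧ Pool.Agent.TH676.Z.lp s d F e = d e := by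
    intro e he
    rw [mem_sdiff] at he
    exact ⟨rfl, by simp [Pool.Agent.TH676.Z.lp, he.2]⟩
  have h5 := facesG V E s d (Crit.nl s d \ F) l 12 K k1 k2 (by
    intro x hx hx0
    rw [← zf_congr s d s (Pool.Agent.TH676.Z.lp s d F) _ hlp] at hx
    refine even_all V E s (lp s d F) (Crit.nl s d \ F) 12 (girthF contract_all hM)
      (noParF contract_all hM) ?_ x hx hx0
    intro e he
    rw [(hlp e he).2]
    exact Crit.mem_nl.1 (mem_sdiff.1 he).1)
  have h6 : (Crit.nl s d).card = (Crit.nl s d \ F).card + (Crit.nl s d ∩ F).card :=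
    (card_sdiff_add_card_inter _ _).symm
  have h7 : (Crit.nl s d ∩ F).card ≤ k := (card_le_card inter_subset_right).trans hF
  exact numF h1 h2 h3 k3 h5 h6 h7 h64 hk

end Pool.Agent.H14.F5.Crossings
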