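import Pool.Graph.R_seed8.Y335.FL.Order

/-!
# Graphs of girth twelve: all but few vertices form a bipartite graph
-/

set_option autoImplicit false
set_option linter.unusedSectionVars false

namespace Pool.Agent.H14.F5

open Finset Pool.Agent.Y335.FL

section tree

variable {V : Type} [Fintype V] [DecidableEq V] {G : SimpleGraph V}

/-- the lengths of short paths to adjacent vertices differ by one -/
theorem adj_len (h12 : ∀ (w : V) (c : G.Walk w w), c.IsCycle → 12 ≤ c.length)
    {x a b : V} (hab : G.Adj a b) {p : G.Walk x a} {q : G.Walk x b} (hp : p.IsPath)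
    (hq : q.IsPath) (h : p.length + q.length ≤ 10) :
    q.length = p.length + 1 ∨ p.length = q.length + 1 := by
  by_cases hb : b ∈ p.support
  · right
    have l1 := p.length_takeUntil_le_length hb
    have l2 := p.length_dropUntil_le_length hb
    have e1 := Ord.uniq h12 (hp.takeUntil hb) hq (by omega)
    have e2 := Ord.uniq h12 (hp.dropUntil hb) (Ord.edge_path hab.symm) (by
      simp only [SimpleGraph.Walk.length_cons, SimpleGraph.Walk.length_nil]
      omega)
    have e3 := congrArg SimpleGraph.Walk.length e1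
    have e4 := congrArg SimpleGraph.Walk.length e2
    simp only [SimpleGraph.Walk.length_cons, SimpleGraph.Walk.length_nil] at e4
    have e5 := congrArg SimpleGraph.Walk.length (p.take_spec hb)
    rw [SimpleGraph.Walk.length_append] at e5
    omega
  · left
    have e1 := Ord.uniq h12 (hp.concat hb hab) hq (by
      rw [SimpleGraph.Walk.length_concat]
      omega)
    have e2 := congrArg SimpleGraph.Walk.length e1
    rw [SimpleGraph.Walk.length_concat] at e2
    omega

/-- short paths on the two sides of an edge -/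
theorem adj_cross (h12 : ∀ (w : V) (c : G.Walk w w), c.IsCycle → 12 ≤ c.length)
    {x y a b : V} (hxy : G.Adj x y) (hab : G.Adj a b) {p : G.Walk x a} {q : G.Walk y b}
    (hp : p.IsPath) (hq : q.IsPath) (hyp : y ∉ p.support) (hxq : x ∉ q.support)
    (hd : p.length ≤ 5) (he : q.length ≤ 5) : p.length = q.length := by
  have hq' : (SimpleGraph.Walk.cons hxy q).IsPath :=
    (SimpleGraph.Walk.cons_isPath_iff hxy q).2 ⟨hq, hxq⟩
  by_cases hb : b ∈ p.support
  · exfalso
    have l1 := p.length_takeUntil_le_length hb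
    have e1 := Ord.uniq h12 (hp.takeUntil hb) hq' (by
      rw [SimpleGraph.Walk.length_cons]
      omega)
    apply hyp
    have h1 : y ∈ (SimpleGraph.Walk.cons hxy q).support := by
      rw [SimpleGraph.Walk.support_cons]
      exact List.mem_cons_of_mem _ q.start_mem_support
    rw [← e1] at h1
    exact p.support_takeUntil_subset_support hb h1
  · by_cases hl : p.length + 1 + (q.length + 1) ≤ 11
    · have e1 := Ord.uniq h12 (hp.concat hb hab) hq' (by
        rw [SimpleGraph.Walk.length_concat, SimpleGraph.Walk.length_cons]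
        exact hl)
      have e2 := congrArg SimpleGraph.Walk.length e1
      rw [SimpleGraph.Walk.length_concat, SimpleGraph.Walk.length_cons] at e2
      omega
    · omega

theorem disj (h12 : ∀ (w : V) (c : G.Walk w w), c.IsCycle → 12 ≤ c.length)
    {x y : V} (hxy : G.Adj x y) {d e : ℕ} (hd : d ≤ 5) (he : e ≤ 5) {v : V}
    (hv : v ∈ Ord.Bs G d x y) (hv' : v ∈ Ord.Bs G e y x) : False := by
  obtain ⟨p, hp, hpl, hyp⟩ := Ord.mem_Bs.1 hv
  obtain ⟨q, hq, hql, hxq⟩ := Ord.mem_Bs.1 hv'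
  have h4 := Ord.uniq h12 hp ((SimpleGraph.Walk.cons_isPath_iff hxy q).2 ⟨hq, hxq⟩) (by
    rw [SimpleGraph.Walk.length_cons]
    omega)
  apply hyp
  rw [h4, SimpleGraph.Walk.support_cons]
  exact List.mem_cons_of_mem _ q.start_mem_support

theorem same_level (h12 : ∀ (w : V) (c : G.Walk w w), c.IsCycle → 12 ≤ c.length)
    {x y : V} {d e : ℕ} (hd : d ≤ 5) (he : e ≤ 5) {v : V}
    (hv : v ∈ Ord.Bs G d x y) (hv' : v ∈ Ord.Bs G e x y) : d = e := by
  obtain ⟨p, hp, hpl, -⟩ := Ord.mem_Bs.1 hv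
  obtain ⟨q, hq, hql, -⟩ := Ord.mem_Bs.1 hv'
  have h4 := Ord.uniq h12 hp hq (by omega)
  rw [← hpl, ← hql, h4]

/-- the colour -/
def Col (G : SimpleGraph V) (x y v : V) : Prop :=
  (∃ d, d ≤ 5 ∧ Even d ∧ v ∈ Ord.Bs G d x y) ∨ ∃ d, d ≤ 5 ∧ Odd d ∧ v ∈ Ord.Bs G d y x

theorem col_left (h12 : ∀ (w : V) (c : G.Walk w w), c.IsCycle → 12 ≤ c.length)
    {x y : V} (hxy : G.Adj x y) {d : ℕ} (hd : d ≤ 5) {v : V} (hv : v ∈ Ord.Bs G d x y) :
    Col G x y v ↔ Even d := by
  constructor
  · rintro (⟨e, he, h1, h2⟩ | ⟨e, he, h1, h2⟩)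
    · rw [same_level h12 hd he hv h2]
      exact h1
    · exact (disj h12 hxy hd he hv h2).elim
  · intro h
    exact Or.inl ⟨d, hd, h, hv⟩

theorem col_right (h12 : ∀ (w : V) (c : G.Walk w w), c.IsCycle → 12 ≤ c.length)
    {x y : V} (hxy : G.Adj x y) {d : ℕ} (hd : d ≤ 5) {v : V} (hv : v ∈ Ord.Bs G d y x) :
    Col G x y v ↔ Odd d := by
  constructor
  · rintro (⟨e, he, h1, h2⟩ | ⟨e, he, h1, h2⟩)
    · exact (disj h12 hxy he hd h2 hv).elim
    · rw [same_level h12 hd he hv h2]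
      exact h1
  · intro h
    exact Or.inr ⟨d, hd, h, hv⟩

theorem col_ne (h12 : ∀ (w : V) (c : G.Walk w w), c.IsCycle → 12 ≤ c.length)
    {x y a b : V} (hxy : G.Adj x y) (hab : G.Adj a b)
    (ha : a ∈ Ord.Ds G x y ∪ Ord.Ds G y x) (hb : b ∈ Ord.Ds G x y ∪ Ord.Ds G y x) :
    (Col G x y a ↔ ¬ Col G x y b) := by
  have hD : ∀ x y v, v ∈ Ord.Ds G x y ↔ ∃ d, d ≤ 5 ∧ v ∈ Ord.Bs G d x y := by
    intro x y v
    unfold Ord.Ds
    rw [mem_biUnion]
    constructor
    · rintro ⟨d, hd, h⟩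
      exact ⟨d, by have := mem_range.1 hd; omega, h⟩
    · rintro ⟨d, hd, h⟩
      exact ⟨d, mem_range.2 (by omega), h⟩
  rw [mem_union, hD, hD] at ha hb
  rcases ha with ⟨d, hd, ha⟩ | ⟨d, hd, ha⟩ <;> rcases hb with ⟨e, he, hb⟩ | ⟨e, he, hb⟩
  · rw [col_left h12 hxy hd ha, col_left h12 hxy he hb]
    obtain ⟨p, hp, hpl, -⟩ := Ord.mem_Bs.1 ha
    obtain ⟨q, hq, hql, -⟩ := Ord.mem_Bs.1 hb
    have h1 := adj_len h12 hab hp hq (by omega)
    rw [hpl, hql] at h1
    rcases h1 with h1 | h1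
    · rw [h1, Nat.even_add_one, not_not]
    · rw [h1, Nat.even_add_one]
  · rw [col_left h12 hxy hd ha, col_right h12 hxy he hb, Nat.not_odd_iff_even]
    obtain ⟨p, hp, hpl, hyp⟩ := Ord.mem_Bs.1 ha
    obtain ⟨q, hq, hql, hxq⟩ := Ord.mem_Bs.1 hb
    have h1 := adj_cross h12 hxy hab hp hq hyp hxq (by omega) (by omega)
    rw [hpl, hql] at h1
    rw [h1]
  · rw [col_right h12 hxy hd ha, col_left h12 hxy he hb, Nat.not_even_iff_odd]
    obtain ⟨p, hp, hpl, hyp⟩ := Ord.mem_Bs.1 ha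
    obtain ⟨q, hq, hql, hxq⟩ := Ord.mem_Bs.1 hb
    have h1 := adj_cross h12 hxy hab.symm hq hp hxq hyp (by omega) (by omega)
    rw [hpl, hql] at h1
    rw [h1]
  · rw [col_right h12 hxy hd ha, col_right h12 hxy he hb, Nat.not_odd_iff_even]
    obtain ⟨p, hp, hpl, -⟩ := Ord.mem_Bs.1 ha
    obtain ⟨q, hq, hql, -⟩ := Ord.mem_Bs.1 hb
    have h1 := adj_len h12 hab hp hq (by omega)
    rw [hpl, hql] at h1
    rcases h1 with h1 | h1
    · rw [h1, Nat.even_add_one, Nat.not_even_iff_odd]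
    · rw [h1, Nat.odd_add_one, Nat.not_odd_iff_even]

/-- **All but `n - 126` vertices form a bipartite graph.** -/
theorem near_bip (h12 : ∀ (w : V) (c : G.Walk w w), c.IsCycle → 12 ≤ c.length)
    (h3 : ∀ x y, G.Adj x y → ∃ a b c, G.Adj x a ∧ G.Adj x b ∧ G.Adj x c ∧ a ≠ b ∧ a ≠ c ∧ b ≠ c)
    {x y : V} (hxy : G.Adj x y) :
    ∃ (T : Finset V) (s : V → Bool), T.card + 126 ≤ Fintype.card V ∧
      ∀ a b, G.Adj a b → a ∉ T → b ∉ T → s a ≠ s b := by
  classical
  refine ⟨(Ord.Ds G x y ∪ Ord.Ds G y x)ᶜ, fun v => decide (Col G x y v), ?_, ?_⟩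
  · have k1 := Ord.card_Ds h12 h3 hxy
    have k2 := Ord.card_Ds h12 h3 hxy.symm
    have k3 : Disjoint (Ord.Ds G x y) (Ord.Ds G y x) := by
      rw [disjoint_left]
      intro v hv hv'
      obtain ⟨d, hd, hv⟩ := mem_biUnion.1 hv
      obtain ⟨e, he, hv'⟩ := mem_biUnion.1 hv'
      have h1 := mem_range.1 hd
      have h2 := mem_range.1 he
      exact disj h12 hxy (by omega) (by omega) hv hv'
    have k4 := card_union_of_disjoint k3
    have k5 := card_add_card_compl (Ord.Ds G x y ∪ Ord.Ds G y x)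
    omega
  · intro a b hab ha hb
    rw [mem_compl, not_not] at ha hb
    have h1 := col_ne h12 hxy hab ha hb
    simp only [ne_eq, decide_eq_decide]
    tauto

/-- a vertex with four neighbours -/
theorem card_of_four (h12 : ∀ (w : V) (c : G.Walk w w), c.IsCycle → 12 ≤ c.length)
    (h3 : ∀ x y, G.Adj x y → ∃ a b c, G.Adj x a ∧ G.Adj x b ∧ G.Adj x c ∧ a ≠ b ∧ a ≠ c ∧ b ≠ c)
    {x y : V} (hxy : G.Adj x y) (S : Finset V) (hS : ∀ z ∈ S, G.Adj x z) (hS4 : 4 ≤ S.card) :
    157 ≤ Fintype.card V := by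
  classical
  have hB1 : 3 ≤ (Ord.Bs G 1 x y).card := by
    have h1 : S.erase y ⊆ Ord.Bs G 1 x y := by
      intro z hz
      rw [mem_erase] at hz
      refine Ord.mem_Bs.2 ⟨SimpleGraph.Walk.cons (hS z hz.2) SimpleGraph.Walk.nil,
        Ord.edge_path (hS z hz.2), by simp, ?_⟩
      simp only [SimpleGraph.Walk.support_cons, SimpleGraph.Walk.support_nil, List.mem_cons,
        List.not_mem_nil, or_false, not_or]
      exact ⟨hxy.ne.symm, fun h => hz.1 h.symm⟩
    have h2 := card_le_card h1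
    have h3 := pred_card_le_card_erase (s := S) (a := y)
    omega
  have hB0 : 1 ≤ (Ord.Bs G 0 x y).card := by
    have h := Ord.card_Bs h12 h3 hxy 0 (by norm_num)
    rwa [pow_zero] at h
  have hB2 := Ord.step h12 h3 hxy (d := 1) (by norm_num)
  have hB3 := Ord.step h12 h3 hxy (d := 2) (by norm_num)
  have hB4 := Ord.step h12 h3 hxy (d := 3) (by norm_num)
  have hB5 := Ord.step h12 h3 hxy (d := 4) (by norm_num)
  have k1 : 94 ≤ (Ord.Ds G x y).card := by
    unfold Ord.Ds
    rw [card_biUnion]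
    · rw [sum_range_succ, sum_range_succ, sum_range_succ, sum_range_succ, sum_range_succ,
        sum_range_succ, sum_range_zero]
      norm_num at hB2 hB3 hB4 hB5
      omega
    · intro d hd e he hne
      change Disjoint (Ord.Bs G d x y) (Ord.Bs G e x y)
      rw [disjoint_left]
      intro v hv hv'
      have h1 := mem_range.1 (mem_coe.1 hd)
      have h2 := mem_range.1 (mem_coe.1 he)
      exact hne (same_level h12 (by omega) (by omega) hv hv')
  have k2 := Ord.card_Ds h12 h3 hxy.symm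
  have k3 : Disjoint (Ord.Ds G x y) (Ord.Ds G y x) := by
    rw [disjoint_left]
    intro v hv hv'
    obtain ⟨d, hd, hv⟩ := mem_biUnion.1 hv
    obtain ⟨e, he, hv'⟩ := mem_biUnion.1 hv'
    have h1 := mem_range.1 hd
    have h2 := mem_range.1 he
    exact disj h12 hxy (by omega) (by omega) hv hv'
  have k4 := card_union_of_disjoint k3
  have k5 := card_le_univ (Ord.Ds G x y ∪ Ord.Ds G y x)
  omega

end tree

end Pool.Agent.H14.F5
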