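import Pool.Agent.H14.F5.Main

/-!
# Few 3-edge-cuts: the theorem `flow` of `H14/F5/Main` for partitions with different boundaries
-/

set_option autoImplicit false
set_option linter.unusedSectionVars false

namespace Pool.Agent.H14.F5.Tri

open Finset Pool.Agent.TH676.Z Pool.Agent.Y335.FL Pool.Agent.Y358.IN Pool.Agent.N410.FV

variable {V E : Type} [Fintype V] [DecidableEq V] [Fintype E] [DecidableEq E]

/-- every partition into classes with at least three boundary edges, of which at least `q` have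
exactly three, and such that a class with three boundary edges has not the same boundary as another
class, has at least `5 (k - 1) / 3` crossing edges -/
def LargeD (q : ℕ) (s d : E → V) (F : Finset E) : Prop :=
  ∀ (k : ℕ) (p : V → Fin k), Function.Surjective p → (∀ e ∈ F, p (s e) = p (d e)) →
    (∀ i, 3 ≤ (crs s d (fib p i)).card) →
    (∀ i j, i ≠ j → (crs s d (fib p i)).card = 3 → crs s d (fib p i) ≠ crs s d (fib p j)) →
    q ≤ (univ.filter (fun i => (crs s d (fib p i)).card = 3)).card →
    5 * k ≤ 3 * (univ.filter (fun e => p (s e) ≠ p (d e))).card + 5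

/-- **Flows modulo five.** -/
theorem flowD (hq : St_quot) (hc : St_contract) (q : ℕ)
    (h3q : ∀ (V E : Type) [Fintype V] [DecidableEq V] [Fintype E] [DecidableEq E] (src dst : E → V),
      MinC src dst → (∃ x y, Adj src dst x y) → q ≤ (univ.filter (fun x => dg src dst x = 3)).card)
    (s d : E → V) (F : Finset E) (hbr : Br s d ∅ ∅) (h : LargeD q s d F) : FlowOn s d ∅ F := by
  classical
  obtain ⟨W, _, _, r, hr, hrF, hl, -⟩ := hq V E s d F
  have h0 : FlowOn (r ∘ s) (r ∘ d) ∅ ∅ → FlowOn s d ∅ F := fun h => by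
    have h1 := hl ∅ h
    rwa [union_empty] at h1
  apply h0
  by_contra hn
  have hbr' : Br (r ∘ s) (r ∘ d) ∅ ∅ := by
    intro Y _
    have h1 := hbr (univ.filter (fun v => r v ∈ Y)) (disjoint_empty_right _)
    rw [sdiff_empty] at h1 ⊢
    have h2 : crs (r ∘ s) (r ∘ d) Y = crs s d (univ.filter (fun v => r v ∈ Y)) := by
      ext e
      rw [mem_crs', mem_crs', mem_filter, mem_filter]
      simp
    rw [h2]
    exact h1
  obtain ⟨s1, d1, ⟨ρ, rfl, rfl⟩, hM⟩ := exists_minC (ccR (r ∘ s) (r ∘ d)) (r ∘ s) (r ∘ d)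
    ⟨id, rfl, rfl⟩ hbr' hn
  set P : V → W := ρ ∘ r with hP
  have e1 : ρ ∘ r ∘ s = P ∘ s := rfl
  have e2 : ρ ∘ r ∘ d = P ∘ d := rfl
  rw [e1, e2] at hM
  by_cases hloop : ∀ e, (P ∘ s) e = (P ∘ d) e
  · exact hM.nf (flow_of_loops hloop)
  push Not at hloop
  obtain ⟨e0, he0⟩ := hloop
  have hex : ∃ x y, Adj (P ∘ s) (P ∘ d) x y :=
    ⟨(P ∘ s) e0, (P ∘ d) e0, he0, e0, Or.inl ⟨rfl, rfl⟩⟩
  have h126 := h3q _ _ _ _ hM hex
  have h3 := threeC hc hM
  -- the vertices which are not isolated
  set B : Finset W := univ.filter (fun x => dg (P ∘ s) (P ∘ d) x ≠ 0) with hB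
  have hmB : ∀ x, x ∈ B ↔ dg (P ∘ s) (P ∘ d) x ≠ 0 := fun x => by simp [hB]
  have hends : ∀ e, P (s e) ≠ P (d e) → P (s e) ∈ B ∧ P (d e) ∈ B := by
    intro e he
    constructor
    · rw [hmB]
      exact (card_pos.2 ⟨e, mem_filter.2 ⟨mem_univ _, he, Or.inl rfl⟩⟩).ne'
    · rw [hmB]
      exact (card_pos.2 ⟨e, mem_filter.2 ⟨mem_univ _, he, Or.inr rfl⟩⟩).ne'
  have hdg3 : ∀ x ∈ B, 3 ≤ dg (P ∘ s) (P ∘ d) x := by
    intro x hx
    rw [hmB] at hx
    obtain ⟨e, he⟩ := card_pos.1 (Nat.pos_of_ne_zero hx)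
    obtain ⟨-, h4, h5⟩ := mem_filter.1 he
    have h6 : ∃ y, Adj (P ∘ s) (P ∘ d) x y := by
      rcases h5 with h5 | h5
      · exact ⟨(P ∘ d) e, by rw [← h5]; exact h4, e, Or.inl ⟨h5, rfl⟩⟩
      · exact ⟨(P ∘ s) e, by rw [← h5]; exact h4.symm, e, Or.inr ⟨rfl, h5⟩⟩
    obtain ⟨y, hy⟩ := h6
    exact Ord.three_dg h3 hy
  obtain ⟨hy0, hz0⟩ := hends e0 he0
  set y0 := P (s e0) with hy0'
  set k := B.card with hk
  set φ : B ≃ Fin k := B.equivFin with hφ
  set qq : V → W := fun v => if P v ∈ B then P v else y0 with hq'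
  have hqB : ∀ v, qq v ∈ B := by
    intro v
    by_cases h1 : P v ∈ B
    · simp only [hq', if_pos h1]; exact h1
    · simp only [hq', if_neg h1]; exact hy0
  have hqe : ∀ e, P (s e) ≠ P (d e) → qq (s e) = P (s e) ∧ qq (d e) = P (d e) := by
    intro e he
    obtain ⟨h1, h2⟩ := hends e he
    exact ⟨if_pos h1, if_pos h2⟩
  have hqe' : ∀ e, P (s e) = P (d e) → qq (s e) = qq (d e) := by
    intro e he
    simp only [hq', he]
  have hqiff : ∀ e, qq (s e) ≠ qq (d e) ↔ P (s e) ≠ P (d e) := by
    intro e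
    constructor
    · intro h1 h2
      exact h1 (hqe' e h2)
    · intro h1
      rw [(hqe e h1).1, (hqe e h1).2]
      exact h1
  set p : V → Fin k := fun v => φ ⟨qq v, hqB v⟩ with hp
  have hpiff : ∀ e, p (s e) ≠ p (d e) ↔ P (s e) ≠ P (d e) := by
    intro e
    rw [← hqiff e]
    constructor
    · intro h1 h2
      exact h1 (congrArg φ (Subtype.ext h2))
    · intro h1 h2
      exact h1 (congrArg Subtype.val (φ.injective h2))
  have hpi : ∀ i v, p v = i ↔ qq v = (φ.symm i).1 := by
    intro i v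
    constructor
    · intro h1
      rw [← h1]
      simp [hp]
    · intro h1
      have h2 : (⟨qq v, hqB v⟩ : B) = φ.symm i := Subtype.ext h1
      simp only [hp, h2, Equiv.apply_symm_apply]
  have hcrs : ∀ i, crs s d (fib p i) = univ.filter (fun e => (P ∘ s) e ≠ (P ∘ d) e ∧
      ((P ∘ s) e = (φ.symm i).1 ∨ (P ∘ d) e = (φ.symm i).1)) := by
    intro i
    ext e
    rw [mem_crs', mem_fib, mem_fib, hpi, hpi, mem_filter]
    simp only [mem_univ, true_and, Function.comp]
    by_cases h1 : P (s e) = P (d e)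
    · have h2 := hqe' e h1
      rw [h2]
      simp [h1]
    · rw [(hqe e h1).1, (hqe e h1).2]
      have h5 : ∀ y, P (s e) = y → P (d e) = y → False := fun y h2 h3 => h1 (h2.trans h3.symm)
      have h6 := h5 (φ.symm i).1
      by_cases h7 : P (s e) = (φ.symm i).1 <;> by_cases h8 : P (d e) = (φ.symm i).1
      · exact (h6 h7 h8).elim
      · simp [h7, h8]
        intro h9
        exact h8 h9.symm
      · simp [h7, h8]
      · simp [h7, h8]
  have hcard : ∀ i, (crs s d (fib p i)).card = dg (P ∘ s) (P ∘ d) (φ.symm i).1 := by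
    intro i
    rw [hcrs]
    rfl
  have hcr : (univ.filter (fun e => p (s e) ≠ p (d e))) = ein (P ∘ s) (P ∘ d) B := by
    ext e
    rw [mem_filter, mem_ein, hpiff]
    simp only [mem_univ, true_and, Function.comp]
    exact ⟨fun h1 => ⟨(hends e h1).1, (hends e h1).2, h1⟩, fun h1 => h1.2.2⟩
  have hB2 : 2 ≤ B.card := by
    have h5 : ({P (s e0), P (d e0)} : Finset W) ⊆ B := by
      intro z hz
      rw [mem_insert, mem_singleton] at hz
      rcases hz with rfl | rfl
      · exact hy0
      · exact hz0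
    have h6 := card_le_card h5
    rwa [card_pair (show P (s e0) ≠ P (d e0) from he0)] at h6
  have hsp := sparse hM B hB2
  have hmain := h k p (fun i => by
      have h1 := (φ.symm i).2
      rw [hmB] at h1
      obtain ⟨e, he⟩ := card_pos.1 (Nat.pos_of_ne_zero h1)
      obtain ⟨-, h4, h5⟩ := mem_filter.1 he
      rcases h5 with h5 | h5
      · exact ⟨s e, (hpi _ _).2 (by rw [(hqe e h4).1]; exact h5)⟩
      · exact ⟨d e, (hpi _ _).2 (by rw [(hqe e h4).2]; exact h5)⟩)
    (fun e he => by
      by_contra h1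
      have h2 := (hpiff e).1 h1
      apply h2
      simp only [hP, Function.comp, hrF e he])
    (fun i => by rw [hcard]; exact hdg3 _ (φ.symm i).2)
    (fun i j hij hi3 hcc => by
      have hne : (φ.symm i).1 ≠ (φ.symm j).1 := fun h1 =>
        hij (φ.symm.injective (Subtype.ext h1))
      have h4 := sparse hM {(φ.symm i).1, (φ.symm j).1} (by rw [card_pair hne])
      rw [card_pair hne] at h4
      have h5 : crs s d (fib p i) ⊆ ein (P ∘ s) (P ∘ d) {(φ.symm i).1, (φ.symm j).1} := by
        intro e he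
        have he' := he
        rw [hcc, hcrs, mem_filter] at he'
        rw [hcrs, mem_filter] at he
        rw [mem_ein, mem_insert, mem_singleton, mem_insert, mem_singleton]
        obtain ⟨-, h6, h7⟩ := he
        obtain ⟨-, -, h8⟩ := he'
        refine ⟨?_, ?_, h6⟩
        · rcases h7 with h7 | h7
          · exact Or.inl h7
          · rcases h8 with h8 | h8
            · exact Or.inr h8
            · exact absurd (h7.symm.trans h8) hne
        · rcases h7 with h7 | h7
          · rcases h8 with h8 | h8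
            · exact absurd (h7.symm.trans h8) hne
            · exact Or.inr h8
          · exact Or.inl h7
      have h9 := card_le_card h5
      omega)
    (by
      refine h126.trans ?_
      refine card_le_card_of_injOn (fun x => if hx : x ∈ B then φ ⟨x, hx⟩ else φ ⟨y0, hy0⟩) ?_ ?_
      · intro x hx
        have hx3 := (mem_filter.1 (mem_coe.1 hx)).2
        have hxB : x ∈ B := by rw [hmB, hx3]; norm_num
        simp only [dif_pos hxB]
        rw [mem_coe, mem_filter]
        refine ⟨mem_univ _, ?_⟩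
        rw [hcard, Equiv.symm_apply_apply]
        exact hx3
      · intro x hx x' hx' hxx
        have hx3 := (mem_filter.1 (mem_coe.1 hx)).2
        have hxB : x ∈ B := by rw [hmB, hx3]; norm_num
        have hx3' := (mem_filter.1 (mem_coe.1 hx')).2
        have hxB' : x' ∈ B := by rw [hmB, hx3']; norm_num
        simp only [dif_pos hxB, dif_pos hxB'] at hxx
        exact congrArg Subtype.val (φ.injective hxx))
  rw [hcr] at hmain
  omega

/-- there are fewer than `q` edge cuts with three edges -/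
theorem largeD_of_few (q : ℕ) (s d : E → V)
    (h : {A : Finset E | A.card = 3 ∧ ∃ Y, crs s d Y = A}.ncard < q) : LargeD q s d ∅ := by
  classical
  intro k p _ _ _ hne hk
  exfalso
  have h1 : ((univ.filter (fun i => (crs s d (fib p i)).card = 3) : Finset (Fin k)) : Set (Fin k)).ncard
      ≤ {A : Finset E | A.card = 3 ∧ ∃ Y, crs s d Y = A}.ncard := by
    refine Set.ncard_le_ncard_of_injOn (fun i => crs s d (fib p i)) ?_ ?_ (Set.toFinite _)
    · intro i hi
      exact ⟨(mem_filter.1 (mem_coe.1 hi)).2, _, rfl⟩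
    · intro i hi j _ hij
      by_contra hn
      exact hne i j hn (mem_filter.1 (mem_coe.1 hi)).2 hij
  rw [Set.ncard_coe_finset] at h1
  omega

end Pool.Agent.H14.F5.Tri
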